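import Pool.Agent.Y843.QD.PT
import Pool.Agent.Y843.QD.Her

/-!
# Narrow progressions of the `m` for which `m ^ 2 + 1` has at most three prime factors

(1) For large `X` and all `A ≤ X ^ (301/300)` at least `c X / log X` integers `m` of `(A, A + X]` are such
that `m ^ 2 + 1` has at most three prime factors, all of them at least `X ^ (1/4)`.

(2) In every set of integers `m` of an interval of length `X` for which `m ^ 2 + 1` has no prime factor
`≤ X ^ (1/t)` (for example `m ^ 2 + 1` prime, or `m` as in (1)) all elements but `ε X / log X` lie in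
progressions of `k` elements of the set with a difference at most a power of `log X`.

(3) The `m` of (1) contain, in every colouring with `s` colours, progressions of `k` terms of one
colour with a difference at most a power of `log X`.
-/

set_option autoImplicit false

namespace Pool.Agent.Results.MP_f1a94e_nt.AlmostPrimeProgressions

open Finset Filter

open Classical in
/-- The integers `A < m ≤ A + X` for which `m ^ 2 + 1` has at most three prime factors, counted with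
multiplicity, all of them at least `X ^ (1/4)`. -/
noncomputable def P3 (A X : ℕ) : Finset ℕ :=
  (Ioc A (A + X)).filter (fun m => (m ^ 2 + 1).primeFactorsList.length ≤ 3 ∧
    ∀ p : ℕ, p.Prime → p ∣ m ^ 2 + 1 → (X : ℝ) ^ (1 / 4 : ℝ) ≤ p)

/-- `m` is a term of a progression of `k` elements of `S` with a difference in `[1, D]` -/
def InAP (k : ℕ) (D : ℝ) (S : Finset ℕ) (m : ℕ) : Prop :=
  ∃ a d : ℕ, 1 ≤ d ∧ (d : ℝ) ≤ D ∧ (∀ j < k, a + j * d ∈ S) ∧ ∃ j < k, m = a + j * d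

open Classical in
/-- The elements of `S` outside of these progressions. -/
noncomputable def outside (k : ℕ) (D : ℝ) (S : Finset ℕ) : Finset ℕ := S.filter (fun m => ¬ InAP k D S m)

theorem qv_eq (n : ℕ) : Pool.Agent.Y843.QD.qv 1 0 1 n = n ^ 2 + 1 := by
  unfold Pool.Agent.Y843.QD.qv
  have : (1 * (n : ℤ) ^ 2 + 0 * n + 1) = ((n ^ 2 + 1 : ℕ) : ℤ) := by push_cast; ring
  rw [this, Int.natAbs_natCast]

theorem adm (p : ℕ) (hp : p.Prime) : ∃ n : ℕ, ¬ (p : ℤ) ∣ 1 * (n : ℤ) ^ 2 + 0 * n + 1 := by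
  refine ⟨0, ?_⟩
  intro h
  norm_num at h
  have h1 : (p : ℤ) ∣ ((1 : ℕ) : ℤ) := by exact_mod_cast h
  rw [Int.natCast_dvd_natCast, Nat.dvd_one] at h1
  exact hp.one_lt.ne' h1

theorem nsq : ¬ IsSquare ((0 : ℤ) ^ 2 - 4 * 1 * 1) := by
  rintro ⟨r, hr⟩
  nlinarith [mul_self_nonneg r]

theorem lin : Pool.Agent.Y843.QD.Lin (Pool.Agent.Y843.QD.Zq 1 0 1) :=
  Pool.Agent.Y843.QD.lin_quad 1 0 1 one_ne_zero nsq adm

theorem avoid {n p : ℕ} (hp : p.Prime) : n % p ∈ Pool.Agent.Y843.QD.Zq 1 0 1 p ↔ p ∣ n ^ 2 + 1 := by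
  rw [Pool.Agent.Y843.QD.mem_Zq hp.pos, ← Pool.Agent.Y843.QD.dvd_qv, qv_eq]

theorem result :
    (∃ c : ℝ, 0 < c ∧ ∀ᶠ X : ℕ in atTop, ∀ A : ℕ, (A : ℝ) ≤ (X : ℝ) ^ (301 / 300 : ℝ) →
      c * X / Real.log X ≤ ((P3 A X).card : ℝ)) ∧
    (∀ (k t : ℕ) (ε : ℝ), 1 ≤ k → 1 ≤ t → 0 < ε → ∃ B : ℕ, ∀ᶠ X : ℕ in atTop, ∀ A : ℕ,
      ∀ S : Finset ℕ, S ⊆ Ioc A (A + X) →
        (∀ m ∈ S, ∀ p : ℕ, p.Prime → p ∣ m ^ 2 + 1 → (X : ℝ) ^ (1 / (t : ℝ)) < p) →
        ((outside k (Real.log X ^ B) S).card : ℝ) ≤ ε * (X / Real.log X)) ∧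
    (∀ k s : ℕ, ∃ B : ℕ, ∀ᶠ X : ℕ in atTop, ∀ A : ℕ, (A : ℝ) ≤ (X : ℝ) ^ (301 / 300 : ℝ) →
      ∀ χ : ℕ → Fin s, ∃ a d : ℕ, 1 ≤ d ∧ (d : ℝ) ≤ Real.log X ^ B ∧
        ∀ j < k, a + j * d ∈ P3 A X ∧ χ (a + j * d) = χ a) := by
  classical
  have hP3 : ∀ A X : ℕ, Pool.Agent.Y843.QD.P3 1 0 1 A X = P3 A X := by
    intro A X
    unfold Pool.Agent.Y843.QD.P3 P3
    apply filter_congr
    intro n _
    rw [qv_eq]
  obtain ⟨c, hc, X₁, h1⟩ := Pool.Agent.Y843.QD.p3_quad 1 0 1 one_ne_zero nsq adm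
  refine ⟨⟨c, hc, ?_⟩, ?_, ?_⟩
  · filter_upwards [eventually_ge_atTop X₁] with X hX A hA
    rw [← hP3]
    exact h1 X hX A hA
  · intro k t ε hk ht hε
    obtain ⟨B, X₀, h2⟩ := Pool.Agent.Y843.QD.her lin hk ht hε
    refine ⟨B, ?_⟩
    filter_upwards [eventually_ge_atTop X₀] with X hX A S hS hSp
    have h3 := h2 X hX A S hS (fun n hn p hp hpX h => by
      have := hSp n hn p hp ((avoid hp).1 h)
      linarith)
    exact h3
  · intro k s
    obtain ⟨B, X₀, h2⟩ := Pool.Agent.Y843.QD.colour lin (t := 5) (by norm_num) hc k s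
    refine ⟨B, ?_⟩
    filter_upwards [eventually_ge_atTop X₀, eventually_ge_atTop X₁, eventually_ge_atTop 2] with X hX hX1 hX2 A hA χ
    have hX2r : (1 : ℝ) < X := by exact_mod_cast (by omega : 1 < X)
    have h3 := h1 X hX1 A hA
    rw [hP3] at h3
    refine h2 X hX A (P3 A X) (filter_subset _ _) ?_ h3 χ
    intro n hn p hp hpX h
    have h4 := (mem_filter.1 hn).2.2 p hp ((avoid hp).1 h)
    have h5 : (X : ℝ) ^ (1 / ((5 : ℕ) : ℝ)) < (X : ℝ) ^ (1 / 4 : ℝ) := by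
      apply Real.rpow_lt_rpow_of_exponent_lt hX2r
      norm_num
    linarith

end Pool.Agent.Results.MP_f1a94e_nt.AlmostPrimeProgressions
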