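import Pool.Agent.Y843.QD.Gen
import Pool.Agent.Y843.HG.GoldP

/-!
# Common summands of any family of even numbers, in arithmetic progressions

Let `n 1, …, n s` be ANY integers in `[X, X ^ A]` without local obstruction. For `t = t(s)` the set `G t n X`
of the primes `p ≤ X` for which all the numbers `2 n j - p` are free of prime factors `≤ X ^ (1/t)` has the
expected order of magnitude, and in EVERY subset of it all but few elements lie in arithmetic
progressions of `k` elements of the subset, with differences of at most a power of `log X`. With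
`x j = n j - p` the first equation of the system `φ(n j - x j) + 1 = n j - x j`,
`φ(n j + x j) + 1 = n j + x j` holds for all `j`, and the second one up to a power saving.
-/

set_option autoImplicit false

namespace Pool.Agent.Results.MP_967f73_nt.CommonSummandsEveryVector

open Finset Filter

/-- No local obstruction: for every prime `q` there is a `u` such that `q` divides neither `u` nor any
`2 n j - u`. -/
def Possible {s : ℕ} (n : Fin s → ℕ) : Prop :=
  ∀ q : ℕ, q.Prime → ∃ u : ℕ, ¬ q ∣ u ∧ ∀ j, ¬ (q : ℤ) ∣ 2 * (n j : ℤ) - u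

open Classical in
/-- The residues `0` and `2 n j`, `j = 1, …, s`, modulo `q`. -/
noncomputable def classes {s : ℕ} (n : Fin s → ℕ) (q : ℕ) : Finset ℕ :=
  (range q).filter (fun c => c = 0 ∨ ∃ j, (q : ℤ) ∣ 2 * (n j : ℤ) - c)

/-- The proportion of the integers `u` such that no prime `q ≤ y` divides `u` or any `2 n j - u`. -/
noncomputable def density {s : ℕ} (n : Fin s → ℕ) (y : ℕ) : ℝ :=
  ∏ q ∈ (Ioc 0 y).filter Nat.Prime, (1 - ((classes n q).card : ℝ) / q)

open Classical in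
/-- The primes `X ^ (1/t) < p ≤ X` such that no prime `q ≤ X ^ (1/t)` divides any `2 n j - p`. -/
noncomputable def G {s : ℕ} (t : ℕ) (n : Fin s → ℕ) (X : ℕ) : Finset ℕ :=
  (Ioc 0 X).filter (fun p => p.Prime ∧ (X : ℝ) ^ (1 / (t : ℝ)) < p ∧
    ∀ q : ℕ, q.Prime → (q : ℝ) ≤ (X : ℝ) ^ (1 / (t : ℝ)) → ∀ j, ¬ (q : ℤ) ∣ 2 * (n j : ℤ) - p)

/-- `p` is a term of a progression of `k` elements of `S` with a difference in `[1, D]` -/
def InAP (k : ℕ) (D : ℝ) (S : Finset ℕ) (p : ℕ) : Prop :=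
  ∃ b d : ℕ, 1 ≤ d ∧ (d : ℝ) ≤ D ∧ (∀ j < k, b + j * d ∈ S) ∧ ∃ j < k, p = b + j * d

open Classical in
/-- The elements of `S` outside of these progressions. -/
noncomputable def outside (k : ℕ) (D : ℝ) (S : Finset ℕ) : Finset ℕ := S.filter (fun p => ¬ InAP k D S p)

theorem avoid {s : ℕ} (n : Fin s → ℕ) {p q : ℕ} (hq : q.Prime) :
    p % q ∈ classes n q ↔ q ∣ p ∨ ∃ j, (q : ℤ) ∣ 2 * (n j : ℤ) - p := by
  classical
  unfold classes
  rw [mem_filter, mem_range]
  have h1 : ∀ j, (q : ℤ) ∣ 2 * (n j : ℤ) - ((p % q : ℕ) : ℤ) ↔ (q : ℤ) ∣ 2 * (n j : ℤ) - p := by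
    intro j
    have h2 : ((p % q : ℕ) : ℤ) ≡ p [ZMOD q] := (Int.natCast_modEq_iff).2 (Nat.mod_modEq p q)
    exact Int.ModEq.dvd_iff ((Int.ModEq.refl (2 * (n j : ℤ))).sub h2)
  simp only [h1]
  rw [← Nat.dvd_iff_mod_eq_zero]
  exact ⟨fun h => h.2, fun h => ⟨Nat.mod_lt _ hq.pos, h⟩⟩

theorem classes_ok {s : ℕ} (n : Fin s → ℕ) (h : Possible n) (q : ℕ) (hq : q.Prime) :
    (classes n q).card ≤ s + 1 ∧ (classes n q).card < q ∧ ∀ c ∈ classes n q, c < q := by
  classical
  refine ⟨?_, ?_, ?_⟩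
  · have h1 : classes n q ⊆ insert 0 (univ.image (fun j => (2 * n j) % q)) := by
      intro c hc
      unfold classes at hc
      rw [mem_filter, mem_range] at hc
      obtain ⟨h1, h2 | ⟨j, hj⟩⟩ := hc
      · rw [h2]
        exact mem_insert_self _ _
      · rw [mem_insert, mem_image]
        right
        refine ⟨j, mem_univ _, ?_⟩
        have h3 : (c : ℤ) ≡ ((2 * n j : ℕ) : ℤ) [ZMOD q] := by
          rw [Int.modEq_iff_dvd]
          push_cast
          exact hj
        have h4 : c ≡ 2 * n j [MOD q] := (Int.natCast_modEq_iff).1 h3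
        have h5 : c % q = (2 * n j) % q := h4
        rw [← h5, Nat.mod_eq_of_lt h1]
    refine (card_le_card h1).trans ((card_insert_le _ _).trans ?_)
    have := card_image_le (s := (univ : Finset (Fin s))) (f := fun j => (2 * n j) % q)
    rw [card_univ, Fintype.card_fin] at this
    omega
  · obtain ⟨u, hu1, hu2⟩ := h q hq
    have h1 : u % q ∉ classes n q := by
      rw [avoid n hq]
      rintro (h | ⟨j, hj⟩)
      · exact hu1 h
      · exact hu2 j hj
    have h2 : classes n q ⊂ range q := by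
      rw [Finset.ssubset_iff_subset_ne]
      refine ⟨filter_subset _ _, ?_⟩
      intro h
      apply h1
      rw [h, mem_range]
      exact Nat.mod_lt _ hq.pos
    have := card_lt_card h2
    rwa [card_range] at this
  · intro c hc
    unfold classes at hc
    rw [mem_filter, mem_range] at hc
    exact hc.1

theorem zero_mem {s : ℕ} (n : Fin s → ℕ) (q : ℕ) (hq : q.Prime) : 0 ∈ classes n q := by
  classical
  unfold classes
  rw [mem_filter, mem_range]
  exact ⟨hq.pos, Or.inl rfl⟩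

theorem sub_avoid {s : ℕ} {t : ℕ} {n : Fin s → ℕ} {X : ℕ} {S : Finset ℕ} (hS : S ⊆ G t n X) :
    ∀ p ∈ S, ∀ q : ℕ, q.Prime → (q : ℝ) ≤ (X : ℝ) ^ (1 / (t : ℝ)) → p % q ∉ classes n q := by
  classical
  intro p hp q hq hqX h
  obtain ⟨_, h2, h3, h4⟩ := mem_filter.1 (hS hp)
  rcases (avoid n hq).1 h with h5 | ⟨j, hj⟩
  · have h6 := (Nat.prime_dvd_prime_iff_eq hq h2).1 h5
    rw [h6] at hqX
    linarith
  · exact h4 q hq hqX j hj

/-- Bernoulli's inequality for products -/
theorem prod_ge (T : Finset ℕ) (f : ℕ → ℝ) (hf : ∀ q ∈ T, 0 ≤ f q ∧ f q ≤ 1) :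
    1 - ∑ q ∈ T, f q ≤ ∏ q ∈ T, (1 - f q) ∧ ∏ q ∈ T, (1 - f q) ≤ 1 ∧ 0 ≤ ∏ q ∈ T, (1 - f q) := by
  classical
  induction T using Finset.induction_on with
  | empty => simp
  | insert a T ha ih =>
    obtain ⟨h1, h2, h3⟩ := ih (fun q hq => hf q (mem_insert_of_mem hq))
    obtain ⟨h4, h5⟩ := hf a (mem_insert_self a T)
    rw [sum_insert ha, prod_insert ha]
    refine ⟨by nlinarith, by nlinarith, mul_nonneg (by linarith) h3⟩

/-- the totient of a number without small prime factors -/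
theorem totient_close (m : ℕ) (L : ℝ) (K : ℕ) (_hm : m ≠ 0) (hL : 1 ≤ L) (h : ∀ q : ℕ, q.Prime → q ∣ m → L < q)
    (hK : m.primeFactorsList.length < K) : (m : ℝ) - m.totient ≤ K * m / L := by
  have h1 := Pool.Agent.Y843.HG.totient_real m
  obtain ⟨h2, _, _⟩ := prod_ge m.primeFactors (fun q => 1 / (q : ℝ)) (fun q hq => by
    have : (1 : ℝ) ≤ q := by exact_mod_cast (Nat.prime_of_mem_primeFactors hq).one_le
    exact ⟨by positivity, by rw [div_le_one (by linarith)]; exact this⟩)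
  have h3 : ∑ q ∈ m.primeFactors, 1 / (q : ℝ) ≤ K / L := by
    calc ∑ q ∈ m.primeFactors, 1 / (q : ℝ) ≤ ∑ _q ∈ m.primeFactors, 1 / L := by
          apply sum_le_sum
          intro q hq
          apply one_div_le_one_div_of_le (by linarith)
          exact (h q (Nat.prime_of_mem_primeFactors hq) (Nat.dvd_of_mem_primeFactors hq)).le
      _ = (m.primeFactors.card : ℝ) / L := by rw [sum_const, nsmul_eq_mul, mul_one_div]
      _ ≤ K / L := by
          apply div_le_div_of_nonneg_right _ (by linarith)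
          have h4 : m.primeFactors.card ≤ m.primeFactorsList.length := by
            unfold Nat.primeFactors
            exact List.toFinset_card_le _
          exact_mod_cast h4.trans hK.le
  have hm0 : (0 : ℝ) ≤ m := Nat.cast_nonneg m
  rw [h1]
  have h5 : (m : ℝ) * (1 - K / L) ≤ m * ∏ p ∈ m.primeFactors, (1 - 1 / (p : ℝ)) :=
    mul_le_mul_of_nonneg_left (by linarith) hm0
  have e : (m : ℝ) * (1 - K / L) = m - K * m / L := by ring
  linarith

/-- Let `s` be given. There is `t ≥ 1` such that, for every sufficiently large `X` and EVERY vector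
`n = (n 1, …, n s)` which is `Possible`:

1. `#(G t n X) ≥ c X ∏ (1 - ρ(q)/q)`, the product over the primes `q ≤ X ^ (1/t)` (`c > 0` depends only on `s`);
2. (for any `u ≥ 1`) in every `S ⊆ G u n X` all the elements but `ε X ∏ (1 - ρ(q)/q)` lie in progressions of
  `k` elements of `S` with a difference at most `log ^ B X`, `B = B(s, u, k, ε)`;
3. in every colouring of the integers with `r` colours `G t n X` contains progressions of `k` terms of
  one colour with a difference at most `log ^ B X`, `B = B(s, k, r)`;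
4. if moreover `X ≤ n j ≤ X ^ A` for all `j`, then for all `p ∈ G t n X` and all `j`, with `x = n j - p`:
  `φ(n j - x) + 1 = n j - x`, the number `n j + x` has fewer than `(A + 1) t` prime factors, and
  `n j + x - φ(n j + x) ≤ (A + 1) t (n j + x) / X ^ (1/t)`. -/
theorem result (s : ℕ) : ∃ t : ℕ, 1 ≤ t ∧
    (∃ c : ℝ, 0 < c ∧ ∀ᶠ X : ℕ in atTop, ∀ n : Fin s → ℕ, Possible n →
      c * X * density n ⌊(X : ℝ) ^ (1 / (t : ℝ))⌋₊ ≤ ((G t n X).card : ℝ)) ∧
    (∀ (k u : ℕ) (ε : ℝ), 1 ≤ k → 1 ≤ u → 0 < ε → ∃ B : ℕ, ∀ᶠ X : ℕ in atTop,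
      ∀ n : Fin s → ℕ, Possible n → ∀ S : Finset ℕ, S ⊆ G u n X →
        ((outside k (Real.log X ^ B) S).card : ℝ) ≤ ε * X * density n ⌊(X : ℝ) ^ (1 / (u : ℝ))⌋₊) ∧
    (∀ k r : ℕ, ∃ B : ℕ, ∀ᶠ X : ℕ in atTop, ∀ n : Fin s → ℕ, Possible n →
      ∀ χ : ℕ → Fin r, ∃ b d : ℕ, 1 ≤ d ∧ (d : ℝ) ≤ Real.log X ^ B ∧
        ∀ i < k, b + i * d ∈ G t n X ∧ χ (b + i * d) = χ b) ∧
    (∀ A : ℕ, 1 ≤ A → ∀ᶠ X : ℕ in atTop, ∀ n : Fin s → ℕ, (∀ j, X ≤ n j ∧ n j ≤ X ^ A) →
      ∀ p ∈ G t n X, ∀ j, ∀ x : ℕ, x = n j - p →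
        (n j - x).totient + 1 = n j - x ∧ (n j + x).primeFactorsList.length < (A + 1) * t ∧
        ((n j + x : ℕ) : ℝ) - ((n j + x).totient : ℝ) ≤
          (((A + 1) * t : ℕ) : ℝ) * ((n j + x : ℕ) : ℝ) / (X : ℝ) ^ (1 / (t : ℝ))) := by
  classical
  obtain ⟨t, ht, c, hc, X₀, h0⟩ := Pool.Agent.Y843.HG.SP_count s
  have ht0 : (0 : ℝ) < t := by exact_mod_cast ht
  have hZ0 : ∀ (n : Fin s → ℕ) (q : ℕ), q.Prime →
      Pool.Agent.Y843.HG.Z0 (fun q => (classes n q).erase 0) q = classes n q := by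
    intro n q hq
    unfold Pool.Agent.Y843.HG.Z0
    exact insert_erase (zero_mem n q hq)
  have hAdm : ∀ (n : Fin s → ℕ), Possible n → ∀ Y : ℕ,
      Pool.Agent.Y843.HG.Adm s Y (fun q => (classes n q).erase 0) := by
    intro n hn Y q hq
    have hqp := Pool.Agent.Y843.HS.Pr_prime hq
    obtain ⟨h1, h2, h3⟩ := classes_ok n hn q hqp
    have h4 := card_erase_add_one (zero_mem n q hqp)
    refine ⟨?_, ?_, ?_, ?_⟩
    · simp only
      omega
    · simp only
      omega
    · exact notMem_erase _ _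
    · intro c hc
      exact h3 c (mem_of_mem_erase hc)
  have hcount : ∀ X : ℕ, X₀ ≤ X → ∀ n : Fin s → ℕ, Possible n →
      c * X * density n ⌊(X : ℝ) ^ (1 / (t : ℝ))⌋₊ ≤ ((G t n X).card : ℝ) := by
    intro X hX n hn
    have h1 := h0 X hX _ (hAdm n hn _)
    have h2 : Pool.Agent.Y843.HS.VV (Pool.Agent.Y843.HG.Z0 (fun q => (classes n q).erase 0)) 0
        ⌊(X : ℝ) ^ (1 / (t : ℝ))⌋₊ = density n ⌊(X : ℝ) ^ (1 / (t : ℝ))⌋₊ := by
      unfold Pool.Agent.Y843.HS.VV density
      apply prod_congr rfl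
      intro q hq
      rw [hZ0 n q (Pool.Agent.Y843.HS.Pr_prime hq)]
    rw [h2] at h1
    refine h1.trans ?_
    have h3 : Pool.Agent.Y843.HG.SP (fun q => (classes n q).erase 0) X ⌊(X : ℝ) ^ (1 / (t : ℝ))⌋₊ ⊆
        G t n X := by
      intro p hp
      unfold Pool.Agent.Y843.HG.SP at hp
      rw [mem_filter] at hp
      obtain ⟨h4, h5, h6⟩ := hp
      have h7 : ∀ q : ℕ, q.Prime → (q : ℝ) ≤ (X : ℝ) ^ (1 / (t : ℝ)) → p % q ∉ classes n q := by
        intro q hq hqX
        have h8 := h6 q (Pool.Agent.Y843.HS.Pr_mem.2 ⟨⟨hq.pos, Nat.le_floor hqX⟩, hq⟩)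
        rwa [hZ0 n q hq] at h8
      unfold G
      rw [mem_filter]
      refine ⟨h4, h5, ?_, ?_⟩
      · by_contra hcon
        rw [not_lt] at hcon
        exact h7 p h5 hcon ((avoid n h5).2 (Or.inl (dvd_refl p)))
      · intro q hq hqX j hj
        exact h7 q hq hqX ((avoid n hq).2 (Or.inr ⟨j, hj⟩))
    exact_mod_cast card_le_card h3
  refine ⟨t, ht, ⟨c, hc, ?_⟩, ?_, ?_, ?_⟩
  · filter_upwards [eventually_ge_atTop X₀] with X hX n hn
    exact hcount X hX n hn
  · intro k u ε hk hu hε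
    have hu0 : (0 : ℝ) < u := by exact_mod_cast hu
    obtain ⟨B, X₁, h1⟩ := Pool.Agent.Y843.HG.fin_iso hk (s + 1) (κ := 1 / (u : ℝ)) (ε := ε) (by positivity) hε
    refine ⟨B, ?_⟩
    filter_upwards [eventually_ge_atTop X₁] with X hX n hn S hS
    exact (h1 X 0 hX (classes n) (fun q hq _ => classes_ok n hn q hq) S
      (by rw [zero_add]; exact hS.trans (filter_subset _ _)) (sub_avoid hS)).le
  · intro k r
    obtain ⟨B, X₁, h1⟩ := Pool.Agent.Y843.QD.colour_gen (s + 1) ht hc k r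
    refine ⟨B, ?_⟩
    filter_upwards [eventually_ge_atTop X₀, eventually_ge_atTop X₁] with X hX hX1 n hn χ
    exact h1 X hX1 0 (classes n) (fun q hq _ => classes_ok n hn q hq) (G t n X)
      (by rw [zero_add]; exact filter_subset _ _) (sub_avoid (Subset.refl _)) (hcount X hX n hn) χ
  · intro A hA
    have hbig := ((tendsto_rpow_atTop (show (0 : ℝ) < 1 / t by positivity)).comp
      (tendsto_natCast_atTop_atTop (R := ℝ))).eventually (eventually_ge_atTop (2 : ℝ))
    filter_upwards [eventually_ge_atTop 3, hbig] with X hX hX2 n hn p hp j x hx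
    simp only [Function.comp_apply] at hX2
    have hXr : (3 : ℝ) ≤ X := by exact_mod_cast hX
    have hX0 : (0 : ℝ) < X := by linarith
    obtain ⟨h1, h2, h3, h4⟩ := mem_filter.1 hp
    rw [mem_Ioc] at h1
    obtain ⟨hn1, hn2⟩ := hn j
    have hpn : p ≤ n j := h1.2.trans hn1
    have e1 : n j - x = p := by omega
    have e2 : n j + x = 2 * n j - p := by omega
    have hp1 := h2.one_lt
    have hm0 : n j + x ≠ 0 := by omega
    have hfac : ∀ q : ℕ, q.Prime → q ∣ n j + x → (X : ℝ) ^ (1 / (t : ℝ)) < q := by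
      intro q hq hqd
      by_contra hcon
      rw [not_lt] at hcon
      apply h4 q hq hcon j
      have h5 : (q : ℤ) ∣ ((n j + x : ℕ) : ℤ) := by exact_mod_cast hqd
      have h6 : ((n j + x : ℕ) : ℤ) = 2 * (n j : ℤ) - p := by
        rw [e2]
        push_cast [Nat.cast_sub (show p ≤ 2 * n j by omega)]
        ring
      rwa [h6] at h5
    have hA0 : (0 : ℝ) < ((A + 1 : ℕ) : ℝ) := by positivity
    have hpow : (((X : ℝ) ^ (A + 1)) ^ (1 / (((A + 1) * t : ℕ) : ℝ))) = (X : ℝ) ^ (1 / (t : ℝ)) := by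
      rw [← Real.rpow_natCast, ← Real.rpow_mul hX0.le]
      congr 1
      push_cast
      field_simp
    have hlen : (n j + x).primeFactorsList.length < (A + 1) * t := by
      apply Pool.Agent.Y843.HG.length_le _ ((A + 1) * t) ((X : ℝ) ^ (A + 1)) (by positivity) hm0 _ _
        (Nat.mul_pos (by omega) ht)
      · have h5 : n j + x < X ^ (A + 1) := by
          have h6 : n j + x ≤ 2 * X ^ A := by omega
          have h7 : 0 < X ^ A := Nat.pow_pos (by omega)
          calc n j + x ≤ 2 * X ^ A := h6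
            _ < X * X ^ A := Nat.mul_lt_mul_of_pos_right (by omega) h7
            _ = X ^ (A + 1) := by rw [pow_succ, mul_comm]
        exact_mod_cast h5
      · rw [hpow]
        exact hfac
    refine ⟨?_, hlen, ?_⟩
    · rw [e1, Nat.totient_prime h2]
      omega
    · exact totient_close (n j + x) ((X : ℝ) ^ (1 / (t : ℝ))) ((A + 1) * t) hm0 (by linarith) hfac hlen

end Pool.Agent.Results.MP_967f73_nt.CommonSummandsEveryVector
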