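import Pool.Agent.Y867.Omega

/-!
The error term of the asymptotic formula for the number of primes `n^2+1` is `Ω(log log N)`, in
every short interval. It rests on `Pool.Agent.H474R2.PG.composite_strings` of the starting library.
-/

namespace Pool.Agent.Results.MP_484c84_nt.ErrorTermOmega

/-- There are `c > 0` and `Y₀` such that for all `C ≥ 0`, `Y ≥ Y₀` and all integers `x ≥ Y` some
integer `N` between `x` and `x + Y` satisfies
`|P₁(N) - C ∫_2^N dt / log t| ≥ c C (log Y / log x) log log Y`, where `P₁(N)` is the number of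
`1 ≤ n ≤ N` for which `n^2+1` is prime. -/
theorem result : ∃ c : ℝ, 0 < c ∧ ∃ Y₀ : ℝ, ∀ (C Y : ℝ) (x : ℕ), 0 ≤ C → Y₀ ≤ Y → Y ≤ x →
    ∃ N : ℕ, x ≤ N ∧ (N : ℝ) ≤ x + Y ∧
      c * C * (Real.log Y / Real.log x) * Real.log (Real.log Y) ≤
        |(((Finset.Icc 1 N).filter (fun n => (n ^ 2 + 1).Prime)).card : ℝ) -
          C * ∫ t in (2 : ℝ)..(N : ℝ), 1 / Real.log t| :=
  Pool.Agent.Y867.omega

end Pool.Agent.Results.MP_484c84_nt.ErrorTermOmega
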