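import Pool.Agent.Y843.QD.Gen
import Pool.Agent.Y843.QD.Root
import Pool.Agent.Y843.HG.GoldP

/-!
# Progressions of `n` for which all `n ^ 2 + a i` are almost prime, for every vector `a`

Let `a` be ANY vector of `s` integers such that no prime divides `∏ (n ^ 2 + a i)` for every `n`. The set
`R t a Y H` of the `n` in `(Y, Y + H]` for which no `n ^ 2 + a i` has a prime factor `≤ H ^ (1/t)` has (for
`t = t(s)`) the expected order of magnitude, and all but few elements of EVERY subset of it lie in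
arithmetic progressions of `k` elements of the subset with differences of at most a power of `log H`;
everything is uniform in `a` and `Y`.
-/

set_option autoImplicit false

namespace Pool.Agent.Results.MP_391708_nt.EveryVectorOfShifts

open Finset Filter

/-- No prime divides `∏ (n ^ 2 + a i)` for all `n`. -/
def Possible {s : ℕ} (a : Fin s → ℤ) : Prop :=
  ∀ p : ℕ, p.Prime → ∃ n : ℕ, ∀ i, ¬ (p : ℤ) ∣ (n : ℤ) ^ 2 + a i

open Classical in
/-- The residues `c` modulo `p` for which `p` divides some `c ^ 2 + a i`. -/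
noncomputable def roots {s : ℕ} (a : Fin s → ℤ) (p : ℕ) : Finset ℕ :=
  (range p).filter (fun c => ∃ i, (p : ℤ) ∣ (c : ℤ) ^ 2 + a i)

/-- The proportion of the integers `n` such that no prime `≤ y` divides any `n ^ 2 + a i`. -/
noncomputable def density {s : ℕ} (a : Fin s → ℤ) (y : ℕ) : ℝ :=
  ∏ p ∈ (Ioc 0 y).filter Nat.Prime, (1 - ((roots a p).card : ℝ) / p)

open Classical in
/-- The integers `Y < n ≤ Y + H` such that no prime `≤ H ^ (1/t)` divides any `n ^ 2 + a i`. -/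
noncomputable def R {s : ℕ} (t : ℕ) (a : Fin s → ℤ) (Y H : ℕ) : Finset ℕ :=
  (Ioc Y (Y + H)).filter (fun n => ∀ p : ℕ, p.Prime → (p : ℝ) ≤ (H : ℝ) ^ (1 / (t : ℝ)) →
    ∀ i, ¬ (p : ℤ) ∣ (n : ℤ) ^ 2 + a i)

/-- `n` is a term of a progression of `k` elements of `S` with a difference in `[1, D]` -/
def InAP (k : ℕ) (D : ℝ) (S : Finset ℕ) (n : ℕ) : Prop :=
  ∃ b d : ℕ, 1 ≤ d ∧ (d : ℝ) ≤ D ∧ (∀ j < k, b + j * d ∈ S) ∧ ∃ j < k, n = b + j * d

open Classical in
/-- The elements of `S` outside of these progressions. -/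
noncomputable def outside (k : ℕ) (D : ℝ) (S : Finset ℕ) : Finset ℕ := S.filter (fun n => ¬ InAP k D S n)

theorem avoid {s : ℕ} (a : Fin s → ℤ) {n p : ℕ} (hp : p.Prime) :
    n % p ∈ roots a p ↔ ∃ i, (p : ℤ) ∣ (n : ℤ) ^ 2 + a i := by
  classical
  have h := fun i => Pool.Agent.Y843.QD.mem_Zq (α := 1) (β := 0) (γ := a i) hp.pos n
  simp only [Pool.Agent.Y843.QD.Zq, mem_filter, mem_range] at h
  unfold roots
  rw [mem_filter, mem_range]
  constructor
  · rintro ⟨h1, i, h2⟩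
    refine ⟨i, ?_⟩
    have h3 := (h i).1 ⟨h1, by rw [one_mul, zero_mul, add_zero]; exact h2⟩
    rwa [one_mul, zero_mul, add_zero] at h3
  · rintro ⟨i, h2⟩
    have h3 := (h i).2 (by rw [one_mul, zero_mul, add_zero]; exact h2)
    rw [one_mul, zero_mul, add_zero] at h3
    exact ⟨h3.1, i, h3.2⟩

theorem roots_ok {s : ℕ} (a : Fin s → ℤ) (h : Possible a) (p : ℕ) (hp : p.Prime) :
    (roots a p).card ≤ 2 * s ∧ (roots a p).card < p ∧ ∀ c ∈ roots a p, c < p := by
  classical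
  refine ⟨?_, ?_, ?_⟩
  · have h1 : roots a p ⊆ univ.biUnion (fun i => Pool.Agent.Y843.QD.Zq 1 0 (a i) p) := by
      intro c hc
      unfold roots at hc
      rw [mem_filter] at hc
      obtain ⟨h1, i, h2⟩ := hc
      rw [mem_biUnion]
      refine ⟨i, mem_univ _, ?_⟩
      unfold Pool.Agent.Y843.QD.Zq
      rw [mem_filter]
      refine ⟨h1, ?_⟩
      rw [one_mul, zero_mul, add_zero]
      exact h2
    refine (card_le_card h1).trans (card_biUnion_le.trans ?_)
    calc ∑ i : Fin s, (Pool.Agent.Y843.QD.Zq 1 0 (a i) p).card ≤ ∑ _i : Fin s, 2 := by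
          apply sum_le_sum
          intro i _
          apply (Pool.Agent.Y843.QD.card_Zq_le 1 0 (a i) _ p hp).1
          intro q hq
          obtain ⟨n, hn⟩ := h q hq
          refine ⟨n, ?_⟩
          rw [one_mul, zero_mul, add_zero]
          exact hn i
      _ = 2 * s := by rw [sum_const, card_univ, Fintype.card_fin, smul_eq_mul, mul_comm]
  · obtain ⟨n, hn⟩ := h p hp
    have h1 : n % p ∉ roots a p := by
      rw [avoid a hp]
      rintro ⟨i, hi⟩
      exact hn i hi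
    have h2 : roots a p ⊂ range p := by
      rw [Finset.ssubset_iff_subset_ne]
      refine ⟨filter_subset _ _, ?_⟩
      intro h
      apply h1
      rw [h, mem_range]
      exact Nat.mod_lt _ hp.pos
    have := card_lt_card h2
    rwa [card_range] at this
  · intro c hc
    unfold roots at hc
    rw [mem_filter, mem_range] at hc
    exact hc.1

theorem sub_avoid {s : ℕ} {t : ℕ} {a : Fin s → ℤ} {Y H : ℕ} {S : Finset ℕ} (hS : S ⊆ R t a Y H) :
    ∀ n ∈ S, ∀ p : ℕ, p.Prime → (p : ℝ) ≤ (H : ℝ) ^ (1 / (t : ℝ)) → n % p ∉ roots a p := by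
  classical
  intro n hn p hp hpH h
  obtain ⟨i, hi⟩ := (avoid a hp).1 h
  exact (mem_filter.1 (hS hn)).2 p hp hpH i hi

/-- Let `s ≥ 1`. There is `t ≥ 1` such that, for every sufficiently large `H`, every `Y` and EVERY vector
`a` of `s` integers which is `Possible`:

1. `#(R t a Y H) ≥ c H ∏ (1 - ρ(p)/p)`, the product over the primes `≤ H ^ (1/t)` (`c > 0` depends only on `s`);
2. (for any `t`) in every `S ⊆ R t a Y H` all the elements but `ε H ∏ (1 - ρ(p)/p)` lie in progressions of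
  `k` elements of `S` with a difference at most `log ^ B H`, `B = B(s, t, k, ε)`;
3. in every colouring of the integers with `q` colours `R t a Y H` contains progressions of `k` terms of
  one colour with a difference at most `log ^ B H`, `B = B(s, k, q)`;
4. if moreover `Y ≤ H ^ A` and `|a i| ≤ H ^ (2 A)` then for every `n ∈ R t a Y H` all the `n ^ 2 + a i` have
  fewer than `(2 A + 1) t` prime factors (with multiplicity). -/
theorem result (s : ℕ) : ∃ t : ℕ, 1 ≤ t ∧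
    (∃ c : ℝ, 0 < c ∧ ∀ᶠ H : ℕ in atTop, ∀ (Y : ℕ) (a : Fin s → ℤ), Possible a →
      c * H * density a ⌊(H : ℝ) ^ (1 / (t : ℝ))⌋₊ ≤ ((R t a Y H).card : ℝ)) ∧
    (∀ (k u : ℕ) (ε : ℝ), 1 ≤ k → 1 ≤ u → 0 < ε → ∃ B : ℕ, ∀ᶠ H : ℕ in atTop,
      ∀ (Y : ℕ) (a : Fin s → ℤ), Possible a → ∀ S : Finset ℕ, S ⊆ R u a Y H →
        ((outside k (Real.log H ^ B) S).card : ℝ) ≤ ε * H * density a ⌊(H : ℝ) ^ (1 / (u : ℝ))⌋₊) ∧
    (∀ k q : ℕ, ∃ B : ℕ, ∀ᶠ H : ℕ in atTop, ∀ (Y : ℕ) (a : Fin s → ℤ), Possible a →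
      ∀ χ : ℕ → Fin q, ∃ b d : ℕ, 1 ≤ d ∧ (d : ℝ) ≤ Real.log H ^ B ∧
        ∀ j < k, b + j * d ∈ R t a Y H ∧ χ (b + j * d) = χ b) ∧
    (∀ A : ℕ, 1 ≤ A → ∀ᶠ H : ℕ in atTop, ∀ (Y : ℕ) (a : Fin s → ℤ), Y ≤ H ^ A →
      (∀ i, |a i| ≤ (H : ℤ) ^ (2 * A)) → ∀ n ∈ R t a Y H, ∀ i,
        (n : ℤ) ^ 2 + a i ≠ 0 ∧ (((n : ℤ) ^ 2 + a i).natAbs).primeFactorsList.length < (2 * A + 1) * t) := by
  classical
  obtain ⟨t, ht, c, hc, X₀, h0⟩ := Pool.Agent.Y843.QD.low_count (2 * s)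
  have ht0 : (0 : ℝ) < t := by exact_mod_cast ht
  have hR : ∀ (H Y : ℕ) (a : Fin s → ℤ), Possible a →
      Pool.Agent.Y843.QD.SZ (roots a) Y H ⌊(H : ℝ) ^ (1 / (t : ℝ))⌋₊ = R t a Y H := by
    intro H Y a _
    unfold Pool.Agent.Y843.QD.SZ R
    apply filter_congr
    intro n _
    constructor
    · intro h p hp hpH i hi
      refine h p ?_ ((avoid a hp).2 ⟨i, hi⟩)
      rw [Pool.Agent.Y843.HS.Pr_mem]
      exact ⟨⟨hp.pos, Nat.le_floor hpH⟩, hp⟩
    · intro h p hp h1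
      rw [Pool.Agent.Y843.HS.Pr_mem] at hp
      obtain ⟨i, hi⟩ := (avoid a hp.2).1 h1
      exact h p hp.2 ((Nat.le_floor_iff (by positivity)).1 hp.1.2) i hi
  have hcount : ∀ H : ℕ, X₀ ≤ H → ∀ (Y : ℕ) (a : Fin s → ℤ), Possible a →
      c * H * density a ⌊(H : ℝ) ^ (1 / (t : ℝ))⌋₊ ≤ ((R t a Y H).card : ℝ) := by
    intro H hH Y a ha
    have h1 := h0 H hH Y (roots a) (fun p hp => roots_ok a ha p (Pool.Agent.Y843.HS.Pr_prime hp))
    rw [hR H Y a ha] at h1
    exact h1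
  refine ⟨t, ht, ⟨c, hc, ?_⟩, ?_, ?_, ?_⟩
  · filter_upwards [eventually_ge_atTop X₀] with H hH Y a ha
    exact hcount H hH Y a ha
  · intro k u ε hk hu hε
    have hu0 : (0 : ℝ) < u := by exact_mod_cast hu
    obtain ⟨B, X₁, h1⟩ := Pool.Agent.Y843.HG.fin_iso hk (2 * s) (κ := 1 / (u : ℝ)) (ε := ε) (by positivity) hε
    refine ⟨B, ?_⟩
    filter_upwards [eventually_ge_atTop X₁] with H hH Y a ha S hS
    exact (h1 H Y hH (roots a) (fun p hp _ => roots_ok a ha p hp) S (hS.trans (filter_subset _ _))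
      (sub_avoid hS)).le
  · intro k q
    obtain ⟨B, X₁, h1⟩ := Pool.Agent.Y843.QD.colour_gen (2 * s) ht hc k q
    refine ⟨B, ?_⟩
    filter_upwards [eventually_ge_atTop X₀, eventually_ge_atTop X₁] with H hH hH1 Y a ha χ
    exact h1 H hH1 Y (roots a) (fun p hp _ => roots_ok a ha p hp) (R t a Y H) (filter_subset _ _)
      (sub_avoid (Subset.refl _)) (hcount H hH Y a ha) χ
  · intro A hA
    have hbig := ((tendsto_rpow_atTop (show (0 : ℝ) < 1 / t by positivity)).comp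
      (tendsto_natCast_atTop_atTop (R := ℝ))).eventually (eventually_ge_atTop (2 : ℝ))
    filter_upwards [eventually_ge_atTop 6, hbig] with H hH hH2 Y a hY ha n hn i
    simp only [Function.comp_apply] at hH2
    have hHr : (6 : ℝ) ≤ H := by exact_mod_cast hH
    have hH0 : (0 : ℝ) < H := by linarith
    unfold R at hn
    rw [mem_filter, mem_Ioc] at hn
    obtain ⟨⟨hn1, hn2⟩, hn3⟩ := hn
    have hne : (n : ℤ) ^ 2 + a i ≠ 0 := by
      intro h
      refine hn3 2 Nat.prime_two (by push_cast; exact hH2) i ?_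
      rw [h]
      exact dvd_zero _
    refine ⟨hne, ?_⟩
    have hA0 : (0 : ℝ) < ((2 * A + 1 : ℕ) : ℝ) := by positivity
    have hpow : (((H : ℝ) ^ (2 * A + 1)) ^ (1 / (((2 * A + 1) * t : ℕ) : ℝ))) = (H : ℝ) ^ (1 / (t : ℝ)) := by
      rw [← Real.rpow_natCast, ← Real.rpow_mul hH0.le]
      congr 1
      push_cast
      field_simp
    apply Pool.Agent.Y843.HG.length_le _ ((2 * A + 1) * t) ((H : ℝ) ^ (2 * A + 1)) (by positivity)
      (Int.natAbs_ne_zero.2 hne) _ _ (Nat.mul_pos (by omega) ht)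
    · have h1 : ((((n : ℤ) ^ 2 + a i).natAbs : ℕ) : ℤ) < (H : ℤ) ^ (2 * A + 1) := by
        rw [Int.natCast_natAbs]
        have h2 := ha i
        have h3 : |(n : ℤ) ^ 2 + a i| ≤ (n : ℤ) ^ 2 + |a i| := by
          refine (abs_add_le _ _).trans ?_
          rw [abs_of_nonneg (show (0 : ℤ) ≤ (n : ℤ) ^ 2 by positivity)]
        have hHz : (6 : ℤ) ≤ H := by exact_mod_cast hH
        have hHA : (H : ℤ) ≤ (H : ℤ) ^ A := by
          calc (H : ℤ) = (H : ℤ) ^ 1 := (pow_one _).symm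
            _ ≤ (H : ℤ) ^ A := pow_le_pow_right₀ (by linarith) hA
        have h4 : (n : ℤ) ≤ 2 * (H : ℤ) ^ A := by
          have h5 : (n : ℤ) ≤ Y + H := by exact_mod_cast hn2
          have h6 : (Y : ℤ) ≤ (H : ℤ) ^ A := by exact_mod_cast hY
          linarith
        have h5 : (n : ℤ) ^ 2 ≤ 4 * (H : ℤ) ^ (2 * A) := by
          calc (n : ℤ) ^ 2 ≤ (2 * (H : ℤ) ^ A) ^ 2 := pow_le_pow_left₀ (Int.natCast_nonneg n) h4 2
            _ = 4 * (H : ℤ) ^ (2 * A) := by rw [mul_pow, ← pow_mul, mul_comm A 2]; norm_num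
        have h6 : (0 : ℤ) < (H : ℤ) ^ (2 * A) := by positivity
        calc |(n : ℤ) ^ 2 + a i| ≤ 5 * (H : ℤ) ^ (2 * A) := by linarith
          _ < (H : ℤ) ^ (2 * A) * H := by nlinarith
          _ = (H : ℤ) ^ (2 * A + 1) := by rw [pow_succ]
      exact_mod_cast h1
    · intro q hq hqd
      rw [hpow]
      by_contra hcon
      rw [not_lt] at hcon
      exact hn3 q hq hcon i (Int.natCast_dvd.2 hqd)

end Pool.Agent.Results.MP_391708_nt.EveryVectorOfShifts
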