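import Pool.Agent.Y843.HG.Gold
import Pool.Agent.TH935.GF
import Pool.Agent.TH935.GF2
import Pool.Agent.TH935.GF3

/-!
# Binary Goldbach representations: all of them but `o(n² / (φ(n) log² n))` lie in long progressions

For every large even `n`, all the primes `p` with `n - p` prime but `ε n² / (φ(n) log² n)` lie in
progressions of `k` such primes with a difference of at most a power of `log n`; the same holds inside
every set of such primes (Szemerédi's theorem relative to the representations of `n`, uniformly in `n`)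
and inside all windows of a length of at least `n ^ θ`. So the order of magnitude of `r₂(n; ℙ)` is that of
the number of the representations in long progressions. The order is the predicted one for almost all
members of arbitrary thin families.

Definition used from `Pool.Agent.H560R3.GB`: `C₂`: the twin prime constant
`∏_{p > 2} (1 - 1 / (p - 1) ^ 2)`.
-/

set_option autoImplicit false

namespace Pool.Agent.Results.MP_629a14_nt.HereditaryProgressions

open Finset Pool.Agent.H560R3.GB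

/-- `r₂(n; ℙ)`, the number of ordered representations of `n` as a sum of two primes. -/
def r₂ (n : ℕ) : ℕ := ((antidiagonal n).filter (fun q : ℕ × ℕ => q.1.Prime ∧ q.2.Prime)).card

/-- The primes `p` in `(y₁, y₂]` such that `n - p` is a prime; that is, the ordered representations
`n = p + q` with `p` in this window. -/
def P (n y₁ y₂ : ℕ) : Finset ℕ := (Ioc y₁ y₂).filter (fun p => p.Prime ∧ (n - p).Prime)

/-- `p` is a term of an arithmetic progression of `k` elements of `S` with a difference in `[1, D]`. -/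
def InAP (k : ℕ) (D : ℝ) (S : Finset ℕ) (p : ℕ) : Prop :=
  ∃ a d : ℕ, 1 ≤ d ∧ (d : ℝ) ≤ D ∧ (∀ j < k, a + j * d ∈ S) ∧ ∃ j < k, p = a + j * d

open Classical in
/-- The elements of `S` which lie in no progression of `k` elements of `S` with a difference in `[1, D]`. -/
noncomputable def outside (k : ℕ) (D : ℝ) (S : Finset ℕ) : Finset ℕ := S.filter (fun p => ¬ InAP k D S p)

/-- The number of the ordered representations `n = p + q` as a sum of two primes for which `p` lies in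
an arithmetic progression of `k` primes `p'` with `n - p'` prime, with a difference in `[1, D]`. -/
noncomputable def r₂AP (k : ℕ) (D : ℝ) (n : ℕ) : ℕ := r₂ n - (outside k D (P n 0 n)).card

/-- `n² / (φ(n) log² n)` -/
noncomputable def G (n : ℕ) : ℝ := (n : ℝ) ^ 2 / (n.totient * Real.log n ^ 2)

/-- `(y₂ - y₁) n / (φ(n) log² n)` -/
noncomputable def GW (n y₁ y₂ : ℕ) : ℝ := ((y₂ : ℝ) - y₁) * n / (n.totient * Real.log n ^ 2)

/-- In every window `(y₁, y₂]` in `(0, n]` of a length of at least `n / log ^ A n` the number of the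
representations is between `(1 - ε) C₂` and `1 + ε` times `(y₂ - y₁) n / (φ(n) log² n)`, and for every set
`S` of at least `ε` times this number of representations in the window, all the elements of `S`, but
`ε #S`, lie in progressions of `k` elements of `S` with differences of at most `log ^ B n`. -/
def Holds (ε : ℝ) (k A B n : ℕ) : Prop :=
  ∀ y₁ y₂ : ℕ, y₁ < y₂ → y₂ ≤ n → (n : ℝ) / Real.log n ^ A ≤ (y₂ : ℝ) - y₁ →
    ((1 - ε) * C₂ * GW n y₁ y₂ ≤ (P n y₁ y₂).card ∧ ((P n y₁ y₂).card : ℝ) ≤ (1 + ε) * GW n y₁ y₂) ∧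
    ∀ S : Finset ℕ, S ⊆ P n y₁ y₂ → ε * (P n y₁ y₂).card ≤ S.card →
      ((outside k (Real.log n ^ B) S).card : ℝ) ≤ ε * S.card

/-- The additive energy of order `h` of a finite family of integers `v i`: the number of solutions of
`v (a 1) + ... + v (a h) = v (b 1) + ... + v (b h)`. -/
noncomputable def energy (h : ℕ) {ι : Type} [Fintype ι] (v : ι → ℤ) : ℕ :=
  Nat.card {q : (Fin h → ι) × (Fin h → ι) // ∑ j, v (q.1 j) = ∑ j, v (q.2 j)}

open Classical in
/-- The number of the members `v i` of the family which are positive and even, and for which `Holds`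
fails. -/
noncomputable def exceptions (ε : ℝ) (k A B : ℕ) {ι : Type} [Fintype ι] (v : ι → ℤ) : ℕ :=
  (univ.filter (fun i => 0 < v i ∧ Even (v i) ∧ ¬ Holds ε k A B (v i).toNat)).card

lemma outside_eq (k : ℕ) (D : ℝ) (S : Finset ℕ) : outside k D S = Pool.Agent.Y843.HG.Iso k D S := rfl

lemma r₂_eq (n : ℕ) : r₂ n = (P n 0 n).card := by
  unfold r₂ P
  apply card_bij (fun q _ => q.1)
  · intro q hq
    rw [mem_filter, HasAntidiagonal.mem_antidiagonal] at hq
    obtain ⟨h1, h2, h3⟩ := hq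
    rw [mem_filter, mem_Ioc]
    refine ⟨⟨h2.pos, by omega⟩, h2, ?_⟩
    have : n - q.1 = q.2 := by omega
    rw [this]
    exact h3
  · intro q hq q' hq' he
    rw [mem_filter, HasAntidiagonal.mem_antidiagonal] at hq hq'
    ext
    · exact he
    · have h1 := hq.1
      have h2 := hq'.1
      omega
  · intro p hp
    rw [mem_filter, mem_Ioc] at hp
    refine ⟨(p, n - p), ?_, rfl⟩
    rw [mem_filter, HasAntidiagonal.mem_antidiagonal]
    exact ⟨by simp only; omega, hp.2.1, hp.2.2⟩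

/-- (1) -/
theorem every {k : ℕ} (hk : 1 ≤ k) {θ ε : ℝ} (hθ : 0 < θ) (hε : 0 < ε) : ∃ B n₀ : ℕ,
    ∀ n : ℕ, n₀ ≤ n → Even n → ∀ y₁ y₂ : ℕ, y₂ ≤ n → (n : ℝ) ^ θ ≤ (y₂ : ℝ) - y₁ →
      ∀ S : Finset ℕ, S ⊆ P n y₁ y₂ →
        ((outside k (Real.log n ^ B) S).card : ℝ) ≤ ε * GW n y₁ y₂ := by
  obtain ⟨B, n₀, h⟩ := Pool.Agent.Y843.HG.gold_primes hk hθ hε
  refine ⟨B, n₀, ?_⟩
  intro n hn hne y₁ y₂ hy2 hy S hS
  have h0 : (0 : ℝ) ≤ (n : ℝ) ^ θ := by positivity
  have h12 : y₁ ≤ y₂ := by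
    have : (y₁ : ℝ) ≤ y₂ := by linarith
    exact_mod_cast this
  have h1 := h n hn hne y₁ (y₂ - y₁) (by rw [Nat.cast_sub h12]; exact hy) (by omega) S (by
    intro p hp
    have h2 := hS hp
    unfold P at h2
    rw [mem_filter, mem_Ioc] at h2
    rw [mem_Ioc]
    omega) (by
    intro p hp
    have h2 := hS hp
    unfold P at h2
    rw [mem_filter] at h2
    exact h2.2)
  rw [outside_eq]
  refine h1.trans (le_of_eq ?_)
  unfold GW
  rw [Nat.cast_sub h12]
  ring

lemma GW_full (n : ℕ) : GW n 0 n = G n := by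
  unfold GW G
  push_cast
  ring

/-- (2) -/
theorem order (k : ℕ) (hk : 1 ≤ k) :
    (∃ c : ℝ, 0 < c ∧ ∃ n₀ : ℕ, ∀ n : ℕ, n₀ ≤ n → Even n → c * G n ≤ r₂ n) ↔
    ∃ c : ℝ, 0 < c ∧ ∃ B n₀ : ℕ, ∀ n : ℕ, n₀ ≤ n → Even n → c * G n ≤ r₂AP k (Real.log n ^ B) n := by
  constructor
  · rintro ⟨c, hc, n₀, h⟩
    obtain ⟨B, n₁, h1⟩ := every hk (θ := 1) (ε := c / 2) one_pos (by positivity)
    refine ⟨c / 2, by positivity, B, max n₀ n₁, ?_⟩
    intro n hn hne
    have h2 := h n ((le_max_left _ _).trans hn) hne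
    have h3 := h1 n ((le_max_right _ _).trans hn) hne 0 n le_rfl (by simp) (P n 0 n) (Subset.refl _)
    rw [GW_full] at h3
    unfold r₂AP
    classical
    have h4 : (outside k (Real.log n ^ B) (P n 0 n)).card ≤ r₂ n := by
      rw [r₂_eq]
      unfold outside
      exact card_le_card (filter_subset _ _)
    rw [Nat.cast_sub h4]
    linarith
  · rintro ⟨c, hc, B, n₀, h⟩
    refine ⟨c, hc, n₀, fun n hn hne => (h n hn hne).trans ?_⟩
    exact_mod_cast Nat.sub_le _ _

lemma P_eq (n y₁ y₂ : ℕ) : (P n y₁ y₂).card = Pool.Agent.W93.PG.cnt n y₁ y₂ := rfl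

/-- (3) -/
theorem families (h k A : ℕ) (hh : 1 ≤ h) (hk : 1 ≤ k) (ε : ℝ) (hε : 0 < ε) :
    ∃ B : ℕ, ∀ B' C U : ℕ, ∃ N₀ : ℕ, ∀ N : ℕ, N₀ ≤ N → ∀ (ι : Type) [Fintype ι] (v : ι → ℤ),
      (∀ i, v i ≤ B' * N) →
      (energy h v : ℝ) * N ≤ Real.log N ^ C * (Fintype.card ι : ℝ) ^ (2 * h) →
      (exceptions ε k A B v : ℝ) ≤ Fintype.card ι / Real.log N ^ U := by
  classical
  have hC2 : 1 / 2 ≤ C₂ := Pool.Agent.W93.GB.C2_half
  obtain ⟨B, n₀, hB⟩ := every hk (θ := 1 / 2) (ε := ε ^ 2 * (1 / 4)) (by norm_num) (by positivity)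
  refine ⟨B, ?_⟩
  intro B' C U
  obtain ⟨n1, h1⟩ := Pool.Agent.H373R2.T7.ev_L' 2
  obtain ⟨n2, h2⟩ := Pool.Agent.Y843.HS.log_pow_le (2 * A) 1
  obtain ⟨ε₁, hε₁⟩ : ∃ ε₁ : ℝ, ε₁ = min ε (1 / 2) := ⟨_, rfl⟩
  have hε₁0 : 0 < ε₁ := by rw [hε₁]; exact lt_min hε (by norm_num)
  have hε₁1 : ε₁ ≤ ε := by rw [hε₁]; exact min_le_left _ _
  have hε₁2 : ε₁ ≤ 1 / 2 := by rw [hε₁]; exact min_le_right _ _
  have hP : ∀ m : ℕ, n1 + n2 + n₀ + 4 ≤ m → 2 ∣ m → Pool.Agent.W93.PG.WinP ε₁ A m →
      Holds ε k A B m := by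
    intro m hm h2m hwin y₁ y₂ h12 hy2 hΔ
    have a1 := h1 m (by omega)
    have a2 := h2 m (by omega)
    have hm4 : (4 : ℝ) ≤ m := by exact_mod_cast (by omega : 4 ≤ m)
    have hm0 : (0 : ℝ) < m := by linarith
    have hmne : m ≠ 0 := by omega
    obtain ⟨s1, s2⟩ := Pool.Agent.TH935.GF.sing_tot m hmne h2m
    have hφ : (0 : ℝ) < m.totient := by exact_mod_cast Nat.totient_pos.2 (Nat.pos_of_ne_zero hmne)
    have hM2 : 2 ≤ Real.log (m : ℝ) := by linarith
    have hw := hwin y₁ y₂ h12 hy2 hΔ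
    rw [← P_eq m y₁ y₂] at hw
    have hy : (0 : ℝ) < (y₂ : ℝ) - y₁ := by
      have : (y₁ : ℝ) < y₂ := by exact_mod_cast h12
      linarith
    obtain ⟨M, hM⟩ : ∃ M, M = Real.log (m : ℝ) := ⟨_, rfl⟩
    rw [← hM] at hM2
    have hM0 : 0 < M := by linarith
    obtain ⟨Q, hQ⟩ : ∃ Q : ℝ, Q = ((y₂ : ℝ) - y₁) / Real.log m ^ 2 := ⟨_, rfl⟩
    have hQ0 : 0 < Q := by
      rw [hQ, ← hM]
      positivity
    have e1 : sing m * ((y₂ : ℝ) - y₁) / Real.log m ^ 2 = sing m * Q := by rw [hQ, mul_div_assoc]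
    have e2 : GW m y₁ y₂ = m / m.totient * Q := by
      unfold GW
      rw [hQ]
      field_simp
    rw [e1] at hw
    have hr0 : 0 < (m : ℝ) / m.totient := by positivity
    have hs0 : 0 ≤ sing m := le_trans (by positivity) s1
    have hsQ : 0 ≤ sing m * Q := by positivity
    have hw2 := abs_le.1 hw
    have t1 : C₂ * GW m y₁ y₂ ≤ sing m * Q := by
      rw [e2, ← mul_assoc]
      exact mul_le_mul_of_nonneg_right s1 hQ0.le
    have t2 : sing m * Q ≤ GW m y₁ y₂ := by
      rw [e2]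
      exact mul_le_mul_of_nonneg_right s2 hQ0.le
    have hGW0 : 0 < GW m y₁ y₂ := by rw [e2]; positivity
    have b1 : (1 - ε₁) * (C₂ * GW m y₁ y₂) ≤ (P m y₁ y₂).card := by
      have h3 : (1 - ε₁) * (C₂ * GW m y₁ y₂) ≤ (1 - ε₁) * (sing m * Q) :=
        mul_le_mul_of_nonneg_left t1 (by linarith)
      linarith [hw2.1]
    have b2 : ((P m y₁ y₂).card : ℝ) ≤ (1 + ε₁) * GW m y₁ y₂ := by
      have h3 : (1 + ε₁) * (sing m * Q) ≤ (1 + ε₁) * GW m y₁ y₂ :=
        mul_le_mul_of_nonneg_left t2 (by linarith)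
      linarith [hw2.2]
    refine ⟨⟨?_, ?_⟩, ?_⟩
    · have h3 : (1 - ε) * (C₂ * GW m y₁ y₂) ≤ (1 - ε₁) * (C₂ * GW m y₁ y₂) :=
        mul_le_mul_of_nonneg_right (by linarith) (by positivity)
      rw [mul_assoc]
      linarith
    · have h3 : (1 + ε₁) * GW m y₁ y₂ ≤ (1 + ε) * GW m y₁ y₂ :=
        mul_le_mul_of_nonneg_right (by linarith) hGW0.le
      linarith
    · intro S hS hSc
      have hlen : (m : ℝ) ^ (1 / 2 : ℝ) ≤ (y₂ : ℝ) - y₁ := by
        refine le_trans ?_ hΔ
        rw [← hM] at a2 ⊢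
        rw [one_mul, mul_comm 2 A, pow_mul] at a2
        have h4 : M ^ A ≤ (m : ℝ) ^ (1 / 2 : ℝ) := by
          rw [← Real.sqrt_eq_rpow]
          exact Real.le_sqrt_of_sq_le a2
        rw [le_div_iff₀ (by positivity)]
        calc (m : ℝ) ^ (1 / 2 : ℝ) * M ^ A ≤ (m : ℝ) ^ (1 / 2 : ℝ) * (m : ℝ) ^ (1 / 2 : ℝ) :=
              mul_le_mul_of_nonneg_left h4 (by positivity)
          _ = m := by rw [← Real.rpow_add hm0]; norm_num
      have h3 := hB m (by omega) (even_iff_two_dvd.2 h2m) y₁ y₂ hy2 hlen S hS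
      refine h3.trans ?_
      have h4 : 1 / 4 * GW m y₁ y₂ ≤ (P m y₁ y₂).card := by
        refine le_trans ?_ b1
        have h5 : 1 / 2 * (1 / 2 * GW m y₁ y₂) ≤ (1 - ε₁) * (C₂ * GW m y₁ y₂) := by
          apply mul_le_mul (by linarith) _ (by positivity) (by linarith)
          exact mul_le_mul_of_nonneg_right hC2 hGW0.le
        linarith
      calc ε ^ 2 * (1 / 4) * GW m y₁ y₂ = ε * (ε * (1 / 4 * GW m y₁ y₂)) := by ring
        _ ≤ ε * (ε * (P m y₁ y₂).card) := by
            apply mul_le_mul_of_nonneg_left _ hε.le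
            exact mul_le_mul_of_nonneg_left h4 hε.le
        _ ≤ ε * S.card := mul_le_mul_of_nonneg_left hSc hε.le
  obtain ⟨N₀, h0⟩ := Pool.Agent.TH935.GF.transfer h B' C U (Holds ε k A B) (by
    intro B' C U
    exact Pool.Agent.TH935.GF.fam_win h B' C A U (n1 + n2 + n₀ + 4) hh ε₁ hε₁0 (Holds ε k A B) hP)
  refine ⟨N₀, fun N hN ι _ v hv hE => ?_⟩
  unfold exceptions
  refine h0 N hN ι v hv hE _ ?_
  intro i hi
  rw [mem_filter] at hi
  exact hi.2

/-- Let `k ≥ 1`.

1. Let `θ, ε > 0`. There is a `B` such that for every sufficiently large even `n`, every window `(y₁, y₂]` in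
  `(0, n]` of a length of at least `n ^ θ`, and every set `S` of primes `p` of the window with `n - p`
  prime: all the elements of `S` but `ε (y₂ - y₁) n / (φ(n) log² n)` lie in arithmetic progressions of `k`
  elements of `S` with differences of at most `log ^ B n`. In particular `r₂(n; ℙ)` is, up to
  `ε n² / (φ(n) log² n)`, the number of the representations in such progressions.
2. Hence the lower bound in Q1, `r₂(n; ℙ) ≫ n² / (φ(n) log² n)` for all large even `n`, is equivalent to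
  the same lower bound for the number of the representations `n = p + q` in which `p` belongs to a
  progression of `k` primes `p'` with `n - p'` prime, with a difference of at most a power of `log n`.
3. Let `h ≥ 1`, `A` and `ε > 0`. There is a `B` such that for all `B'`, `C`, `U` and all large `N` the
  following holds for every finite family of integers `v i ≤ B' N`, `i ∈ ι`, whose additive energy of
  order `h` is at most `log ^ C N (#ι) ^ (2 h) / N` (the family may have as few as `N ^ (1 / h)` members):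
  all the positive even members `n`, with at most `#ι / log ^ U N` exceptions, have the property `Holds`:
  in all windows of a length of at least `n / log ^ A n` the number of the representations has the right
  order of magnitude, with the constants `(1 - ε) C₂` and `1 + ε`, and in every positive proportion of
  them all but the proportion `ε` lies in the progressions of `k` terms, with differences of at most
  `log ^ B n`, of this proportion. -/
theorem result (k : ℕ) (hk : 1 ≤ k) :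
    (∀ θ ε : ℝ, 0 < θ → 0 < ε → ∃ B n₀ : ℕ, ∀ n : ℕ, n₀ ≤ n → Even n → ∀ y₁ y₂ : ℕ, y₂ ≤ n →
      (n : ℝ) ^ θ ≤ (y₂ : ℝ) - y₁ → ∀ S : Finset ℕ, S ⊆ P n y₁ y₂ →
        ((outside k (Real.log n ^ B) S).card : ℝ) ≤ ε * GW n y₁ y₂) ∧
    ((∃ c : ℝ, 0 < c ∧ ∃ n₀ : ℕ, ∀ n : ℕ, n₀ ≤ n → Even n → c * G n ≤ r₂ n) ↔
      ∃ c : ℝ, 0 < c ∧ ∃ B n₀ : ℕ, ∀ n : ℕ, n₀ ≤ n → Even n →
        c * G n ≤ r₂AP k (Real.log n ^ B) n) ∧
    (∀ h A : ℕ, 1 ≤ h → ∀ ε : ℝ, 0 < ε → ∃ B : ℕ, ∀ B' C U : ℕ, ∃ N₀ : ℕ, ∀ N : ℕ, N₀ ≤ N →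
      ∀ (ι : Type) [Fintype ι] (v : ι → ℤ), (∀ i, v i ≤ B' * N) →
      (energy h v : ℝ) * N ≤ Real.log N ^ C * (Fintype.card ι : ℝ) ^ (2 * h) →
      (exceptions ε k A B v : ℝ) ≤ Fintype.card ι / Real.log N ^ U) :=
  ⟨fun _ _ hθ hε => every hk hθ hε, order k hk, fun h A hh ε hε => families h k A hh hk ε hε⟩

end Pool.Agent.Results.MP_629a14_nt.HereditaryProgressions
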