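import Pool.Agent.TH882.J5
import Pool.Agent.Y843.LS.Close

/-!
# The order of magnitude of binary Goldbach representation numbers with prescribed spacing of the primes

The number of the representations `N = p + q` in which `p` is isolated (at a distance of more than
`Λ log N` from all other primes, `Λ` arbitrarily large), or crowded (with `m` other primes at a
distance of at most `ε log N`, `m` arbitrarily large and `ε` arbitrarily small), and in which moreover
`q` is isolated on some scale `μ log N`, has the full order of magnitude `N² / (φ(N) log² N)`.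
-/

set_option autoImplicit false

open Finset Filter Topology

namespace Pool.Agent.Results.MP_629a14_nt.LocalSpacing

/-- `p` is at a distance of more than `R` from every other prime. -/
def Isolated (R : ℝ) (p : ℕ) : Prop := ∀ q : ℕ, q.Prime → q ≠ p → R < |(q : ℝ) - p|

open Classical in
/-- The primes different from `p` at a distance of at most `R` from `p`. -/
noncomputable def neighbours (R : ℝ) (p : ℕ) : Finset ℕ :=
  (Icc 1 (p + ⌊R⌋₊)).filter (fun q => q.Prime ∧ q ≠ p ∧ |(q : ℝ) - p| ≤ R)

/-- There are at least `m` other primes at a distance of at most `R` from `p`. -/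
def Crowded (m : ℕ) (R : ℝ) (p : ℕ) : Prop := m ≤ (neighbours R p).card

open Classical in
/-- The primes `p` for which `q = N - p` is also a prime and `P N p q` holds: the ordered
representations of `N` as a sum of two primes with the property `P`. -/
noncomputable def representations (P : ℕ → ℕ → ℕ → Prop) (N : ℕ) : Finset ℕ :=
  (range N).filter (fun p => p.Prime ∧ (N - p).Prime ∧ P N p (N - p))

open Classical in
/-- The even `N` in `[1, x]` with fewer than `c * N² / (φ(N) log² N)` such representations. -/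
noncomputable def exceptions (P : ℕ → ℕ → ℕ → Prop) (c : ℝ) (x : ℕ) : Finset ℕ :=
  (Icc 1 x).filter (fun N => Even N ∧
    ((representations P N).card : ℝ) < c * ((N : ℝ) ^ 2 / (Nat.totient N * Real.log N ^ 2)))

open Pool.Agent.Y843.LS (S F Ex mem_S isolate)

lemma mem_rep (P : ℕ → ℕ → ℕ → Prop) (N p : ℕ) :
    p ∈ representations P N ↔ p < N ∧ p.Prime ∧ (N - p).Prime ∧ P N p (N - p) := by
  classical
  unfold representations
  rw [mem_filter, mem_range]

lemma rep_eq (P : ℕ → ℕ → ℕ → Prop) (N : ℕ) :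
    representations P N = S (fun p N => P N p (N - p)) N := by
  ext p
  rw [mem_rep, mem_S]

lemma exc_eq (P : ℕ → ℕ → ℕ → Prop) (c : ℝ) (x : ℕ) :
    exceptions P c x = Ex (fun p N => P N p (N - p)) c x := by
  classical
  ext N
  unfold exceptions Ex F
  rw [mem_filter, mem_filter, rep_eq]

lemma isol_iff (R : ℝ) (p : ℕ) : Pool.Agent.TH882.IS.Isol R p ↔ Isolated R p := by
  unfold Pool.Agent.TH882.IS.Isol Isolated
  constructor
  · intro h q hq hqp
    by_contra hcon
    push Not at hcon
    rw [abs_le] at hcon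
    exact hqp (h q hq (by linarith [hcon.2]) (by linarith [hcon.1]))
  · intro h q hq h1 h2
    by_contra hqp
    have h3 := h q hq hqp
    have h4 : |(q : ℝ) - p| ≤ R := by
      rw [abs_le]
      constructor <;> linarith
    linarith

/-- almost all even integers, `p` isolated -/
theorem iso (Λ : ℝ) (hΛ : 0 < Λ) : ∃ c : ℝ, 0 < c ∧
    Tendsto (fun x : ℕ => ((exceptions (fun N p _ => Isolated (Λ * Real.log N) p) c x).card : ℝ) / x)
      atTop (𝓝 0) := by
  classical
  obtain ⟨c, hc, h⟩ := Pool.Agent.TH882.IS.goldbach_iso Λ hΛ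
  refine ⟨c, hc, ?_⟩
  refine h.congr fun x => ?_
  congr 2
  congr 1
  ext N
  have e : Pool.Agent.TH882.IS.RG Λ N =
      representations (fun N p _ => Isolated (Λ * Real.log N) p) N := by
    ext p
    rw [mem_rep]
    unfold Pool.Agent.TH882.IS.RG
    rw [mem_filter, mem_range, isol_iff]
  unfold exceptions
  rw [mem_filter, mem_filter, e]

/-- most even integers, `p` crowded -/
theorem crowd (m : ℕ) (ε κ : ℝ) (hε : 0 < ε) (hκ : 0 < κ) : ∃ c : ℝ, 0 < c ∧
    ∀ᶠ x : ℕ in atTop,
      ((exceptions (fun N p _ => Crowded m (ε * Real.log N) p) c x).card : ℝ) ≤ κ * x := by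
  classical
  obtain ⟨c, hc, X₀, h⟩ := Pool.Agent.TH882.JS.goldbach_most
    (Pool.Agent.TH882.JS.KP m ε) (Pool.Agent.TH882.JS.KP_most m ε hε) (κ / 2) (by positivity)
  refine ⟨c, hc, ?_⟩
  rw [eventually_atTop]
  unfold exceptions
  apply Pool.Agent.TH882.JS.dyadic2 _ κ hκ
  refine ⟨max X₀ 2, fun X hX => (le_trans ?_ (h X (le_trans (le_max_left _ _) hX)))⟩
  have hX2 : 2 ≤ X := le_trans (le_max_right _ _) hX
  apply Nat.cast_le.2
  apply card_le_card
  intro N hN
  rw [mem_filter, mem_Ico] at hN ⊢
  obtain ⟨⟨hN1, hN2⟩, hNe, hNl⟩ := hN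
  refine ⟨⟨hN1, hN2⟩, hNe, lt_of_le_of_lt ?_ hNl⟩
  apply Nat.cast_le.2
  apply card_le_card
  intro p hp
  unfold Pool.Agent.TH882.JS.GA at hp
  rw [mem_filter, mem_Ico] at hp
  obtain ⟨⟨hp1, hp2⟩, hpA, hpN⟩ := hp
  unfold Pool.Agent.TH882.JS.KP at hpA
  rw [mem_filter] at hpA
  obtain ⟨-, hpp, hnb⟩ := hpA
  rw [mem_rep]
  refine ⟨by omega, hpp, hpN, ?_⟩
  refine hnb.trans ?_
  unfold Pool.Agent.TH882.JS.nb neighbours
  apply card_le_card
  intro q hq
  rw [mem_filter, mem_Icc] at hq
  obtain ⟨⟨hq1, hq2⟩, hqp, hqne⟩ := hq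
  have hXr : (2 : ℝ) ≤ X := by exact_mod_cast hX2
  have hXN : (X : ℝ) ≤ N := by
    have : X ≤ N := by omega
    exact_mod_cast this
  have hlog : Real.log X ≤ Real.log N := Real.log_le_log (by linarith) hXN
  have hl0 : 0 ≤ Real.log X := Real.log_nonneg (by linarith)
  have hR : ε * Real.log X ≤ ε * Real.log N := mul_le_mul_of_nonneg_left hlog hε.le
  have hfl : (⌊ε * Real.log X⌋₊ : ℝ) ≤ ε * Real.log X := Nat.floor_le (by positivity)
  have hfl2 : ⌊ε * Real.log X⌋₊ ≤ ⌊ε * Real.log N⌋₊ := Nat.floor_le_floor hR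
  rw [mem_filter, mem_Icc]
  refine ⟨⟨hqp.pos, by omega⟩, hqp, hqne, ?_⟩
  rw [abs_le]
  have h1 : (p : ℝ) ≤ q + ⌊ε * Real.log X⌋₊ := by
    have : p ≤ q + ⌊ε * Real.log X⌋₊ := by omega
    exact_mod_cast this
  have h2 : (q : ℝ) ≤ p + ⌊ε * Real.log X⌋₊ := by exact_mod_cast hq2
  constructor <;> linarith

/-- isolating the second prime -/
theorem both (P : ℕ → ℕ → Prop) (κ c : ℝ) (hκ : 0 < κ) (hc : 0 < c)
    (h : ∀ᶠ x : ℕ in atTop, ((exceptions (fun N p _ => P N p) c x).card : ℝ) ≤ κ / 2 * x) :
    ∃ c μ : ℝ, 0 < c ∧ 0 < μ ∧ ∀ᶠ x : ℕ in atTop,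
      ((exceptions (fun N p q => P N p ∧ Isolated (μ * Real.log N) q) c x).card : ℝ) ≤ κ * x := by
  obtain ⟨μ, hμ, h1⟩ := isolate (fun p N => P N p) c (κ / 2) hc (by positivity) (by
    filter_upwards [h] with x hx
    rw [exc_eq] at hx
    exact hx)
  refine ⟨c / 2, μ, by positivity, hμ, ?_⟩
  filter_upwards [h1] with x hx
  rw [exc_eq]
  refine le_trans hx (le_of_eq ?_)
  ring

/-- **Goldbach representations with prescribed spacing of the primes.**

(1) For every `Λ > 0` there is `c > 0` such that for almost all even `N` (up to a set of density zero)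
there are at least `c N² / (φ(N) log² N)` representations `N = p + q` as a sum of two primes for which
`p` is at a distance of more than `Λ log N` from all other primes.

(2) For all `Λ, κ > 0` there are `c, μ > 0` such that for all large `x` and all even `N ≤ x`, with at
most `κ x` exceptions, there are at least `c N² / (φ(N) log² N)` representations `N = p + q` for which
`p` is at a distance of more than `Λ log N` and `q` is at a distance of more than `μ log N` from all
other primes.

(3) For all `m` and `ε, κ > 0` there are `c, μ > 0` such that for all large `x` and all even `N ≤ x`,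
with at most `κ x` exceptions, there are at least `c N² / (φ(N) log² N)` representations `N = p + q` for
which there are at least `m` other primes at a distance of at most `ε log N` from `p`, and `q` is at a
distance of more than `μ log N` from all other primes. -/
theorem result :
    (∀ Λ : ℝ, 0 < Λ → ∃ c : ℝ, 0 < c ∧
      Tendsto (fun x : ℕ =>
        ((exceptions (fun N p _ => Isolated (Λ * Real.log N) p) c x).card : ℝ) / x) atTop (𝓝 0)) ∧
    (∀ Λ κ : ℝ, 0 < Λ → 0 < κ → ∃ c μ : ℝ, 0 < c ∧ 0 < μ ∧ ∀ᶠ x : ℕ in atTop,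
      ((exceptions (fun N p q => Isolated (Λ * Real.log N) p ∧ Isolated (μ * Real.log N) q)
        c x).card : ℝ) ≤ κ * x) ∧
    (∀ (m : ℕ) (ε κ : ℝ), 0 < ε → 0 < κ → ∃ c μ : ℝ, 0 < c ∧ 0 < μ ∧ ∀ᶠ x : ℕ in atTop,
      ((exceptions (fun N p q => Crowded m (ε * Real.log N) p ∧ Isolated (μ * Real.log N) q)
        c x).card : ℝ) ≤ κ * x) := by
  refine ⟨iso, ?_, ?_⟩
  · intro Λ κ hΛ hκ
    obtain ⟨c, hc, h⟩ := iso Λ hΛ
    refine both (fun N p => Isolated (Λ * Real.log N) p) κ c hκ hc ?_
    have h1 := h.eventually (gt_mem_nhds (show (0 : ℝ) < κ / 2 by positivity))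
    filter_upwards [h1, eventually_gt_atTop 0] with x hx hx0
    have hx0' : (0 : ℝ) < x := by exact_mod_cast hx0
    rw [div_lt_iff₀ hx0'] at hx
    exact hx.le
  · intro m ε κ hε hκ
    obtain ⟨c, hc, h⟩ := crowd m ε (κ / 2) hε (by positivity)
    exact both (fun N p => Crowded m (ε * Real.log N) p) κ c hκ hc h

end Pool.Agent.Results.MP_629a14_nt.LocalSpacing
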