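import Pool.Agent.Y843.HG.GoldP

/-!
# Every large even number is the sum of a prime and an almost prime in arbitrarily long progressions

Let `C t n` be the set of the primes `p ≠ n` such that `2 n - p ≥ 2` is a product of fewer than `t`
primes, all of them larger than `(2 n) ^ (1 / t)`. For an absolute constant `t` and EVERY large `n` this
set has at least `c (2 n)² / (φ(2 n) log² (2 n))` elements, and in every subset `S` all the elements but
`ε #(C t n)` lie in arithmetic progressions of `k` elements of `S`, with differences of at most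
`log ^ B (2 n)`.

Proof: Szemerédi's theorem relative to arbitrary sifted sets (`Pool.Agent.Y843.HS`), applied to the
integers `m < N = 2 n` with `m (N - m)` free of small prime factors, uniformly in `N`; the lower bound is
from the fundamental lemma and the theorem of Bombieri and Vinogradov.
-/

set_option autoImplicit false

namespace Pool.Agent.Results.MP_7b7e48_nt.Progressions

open Finset

open Classical in
/-- The primes `p < 2 n`, `p ≠ n`, such that `2 n - p` is a product of at least one and fewer than `t`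
primes, all of them larger than `(2 n) ^ (1 / t)`. -/
noncomputable def C (t n : ℕ) : Finset ℕ :=
  (range (2 * n)).filter (fun p => p.Prime ∧ p ≠ n ∧ 2 ≤ 2 * n - p ∧
    (2 * n - p).primeFactorsList.length < t ∧
    ∀ q : ℕ, q.Prime → q ∣ 2 * n - p → ((2 * n : ℕ) : ℝ) ^ (1 / (t : ℝ)) < q)

/-- `p` is a term of an arithmetic progression of `k` elements of `S` with a difference in `[1, D]`. -/
def InAP (k : ℕ) (D : ℝ) (S : Finset ℕ) (p : ℕ) : Prop :=
  ∃ a d : ℕ, 1 ≤ d ∧ (d : ℝ) ≤ D ∧ (∀ j < k, a + j * d ∈ S) ∧ ∃ j < k, p = a + j * d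

open Classical in
/-- The elements of `S` which lie in no progression of `k` elements of `S` with a difference in `[1, D]`. -/
noncomputable def outside (k : ℕ) (D : ℝ) (S : Finset ℕ) : Finset ℕ := S.filter (fun p => ¬ InAP k D S p)

lemma outside_eq (k : ℕ) (D : ℝ) (S : Finset ℕ) : outside k D S = Pool.Agent.Y843.HG.Iso k D S := rfl

/-- For an absolute constant `t`:

1. `#(C t n) ≥ c (2 n)² / (φ(2 n) log² (2 n))` for every sufficiently large `n`;
2. for all `k ≥ 1` and `ε > 0` there is a `B` such that for every sufficiently large `n` and every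
  `S ⊆ C t n` all the elements of `S`, but `ε #(C t n)`, lie in arithmetic progressions of `k` elements of
  `S` with differences of at most `log ^ B (2 n)`;
3. for all `k, s ≥ 1` there is a `B` such that for every sufficiently large `n` and every colouring of the
  integers with `s` colours there is an arithmetic progression of `k` elements of `C t n` of the same
  colour, with a difference of at most `log ^ B (2 n)`. -/
theorem result : ∃ t : ℕ, 2 ≤ t ∧ ∃ c : ℝ, 0 < c ∧
    (∃ n₀ : ℕ, ∀ n : ℕ, n₀ ≤ n →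
      c * (((2 * n : ℕ) : ℝ) ^ 2 / ((2 * n).totient * Real.log (2 * n : ℕ) ^ 2)) ≤ (C t n).card) ∧
    (∀ k : ℕ, 1 ≤ k → ∀ ε : ℝ, 0 < ε → ∃ B n₀ : ℕ, ∀ n : ℕ, n₀ ≤ n → ∀ S : Finset ℕ, S ⊆ C t n →
      ((outside k (Real.log (2 * n : ℕ) ^ B) S).card : ℝ) ≤ ε * (C t n).card) ∧
    (∀ k s : ℕ, 1 ≤ k → 1 ≤ s → ∃ B n₀ : ℕ, ∀ n : ℕ, n₀ ≤ n → ∀ χ : ℕ → Fin s, ∃ a d : ℕ,
      1 ≤ d ∧ (d : ℝ) ≤ Real.log (2 * n : ℕ) ^ B ∧ (∀ j < k, a + j * d ∈ C t n) ∧
        ∀ j < k, χ (a + j * d) = χ a) := by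
  classical
  obtain ⟨t₀, ht₀, c, hc, n₀, h⟩ := Pool.Agent.Y843.HG.CS_count
  obtain ⟨t, htd⟩ : ∃ t, t = max t₀ 2 := ⟨_, rfl⟩
  have ht2 : 2 ≤ t := by rw [htd]; exact le_max_right _ _
  have ht0 : t₀ ≤ t := by rw [htd]; exact le_max_left _ _
  have ht0r : (0 : ℝ) < t := by exact_mod_cast (show 0 < t by omega)
  have ht₀r : (0 : ℝ) < t₀ := by exact_mod_cast ht₀
  have hsub : ∀ n : ℕ, C t n ⊆ Pool.Agent.Y843.HG.CS t (2 * n) := by
    intro n p hp
    unfold C at hp
    rw [mem_filter] at hp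
    obtain ⟨h1, h2, h3, h4, h5, h6⟩ := hp
    unfold Pool.Agent.Y843.HG.CS
    rw [mem_filter]
    exact ⟨h1, h2, h6⟩
  have hsup : ∀ n : ℕ, 1 ≤ n → Pool.Agent.Y843.HG.CS t₀ (2 * n) ⊆ C t n ∪ {n, 2 * n - 1} := by
    intro n hn p hp
    unfold Pool.Agent.Y843.HG.CS at hp
    rw [mem_filter, mem_range] at hp
    obtain ⟨h1, h2, h3⟩ := hp
    rw [mem_union, mem_insert, mem_singleton]
    by_cases h4 : p = n
    · exact Or.inr (Or.inl h4)
    by_cases h5 : p = 2 * n - 1
    · exact Or.inr (Or.inr h5)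
    left
    have hN1 : (1 : ℝ) ≤ ((2 * n : ℕ) : ℝ) := by exact_mod_cast (show 1 ≤ 2 * n by omega)
    have h6 : ∀ q : ℕ, q.Prime → q ∣ 2 * n - p → ((2 * n : ℕ) : ℝ) ^ (1 / (t : ℝ)) < q := by
      intro q hq hqd
      refine lt_of_le_of_lt ?_ (h3 q hq hqd)
      apply Real.rpow_le_rpow_of_exponent_le hN1
      apply one_div_le_one_div_of_le ht₀r
      exact_mod_cast ht0
    have hp0 := h2.pos
    unfold C
    rw [mem_filter, mem_range]
    refine ⟨h1, h2, h4, by omega, ?_, h6⟩
    apply Pool.Agent.Y843.HG.length_le (2 * n - p) t ((2 * n : ℕ) : ℝ) (by linarith) (by omega) _ h6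
      (by omega)
    exact_mod_cast (show 2 * n - p < 2 * n by omega)
  -- the number of elements
  have hG : ∀ᶠ n : ℕ in Filter.atTop, 4 ≤ c * (((2 * n : ℕ) : ℝ) ^ 2 /
      ((2 * n).totient * Real.log (2 * n : ℕ) ^ 2)) := by
    obtain ⟨X₀, hX₀⟩ := Pool.Agent.Y843.HS.log_pow_le 2 (4 / c)
    filter_upwards [Filter.eventually_ge_atTop (max X₀ 2)] with n hn
    have hn2 : 2 ≤ n := (le_max_right _ _).trans hn
    have h1 := hX₀ (2 * n) (((le_max_left _ _).trans hn).trans (by omega))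
    have hN0 : (0 : ℝ) < ((2 * n : ℕ) : ℝ) := by exact_mod_cast (show 0 < 2 * n by omega)
    have hl0 : 0 < Real.log (2 * n : ℕ) := Real.log_pos (by exact_mod_cast (show 1 < 2 * n by omega))
    have hφ0 : (0 : ℝ) < (2 * n).totient := by exact_mod_cast Nat.totient_pos.2 (show 0 < 2 * n by omega)
    have hφ1 : ((2 * n).totient : ℝ) ≤ ((2 * n : ℕ) : ℝ) := by exact_mod_cast Nat.totient_le _
    rw [← mul_div_assoc, le_div_iff₀ (by positivity)]
    have h2 : 4 * Real.log (2 * n : ℕ) ^ 2 ≤ c * ((2 * n : ℕ) : ℝ) := by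
      have h3 := mul_le_mul_of_nonneg_left h1 hc.le
      have h4 : c * (4 / c * Real.log (2 * n : ℕ) ^ 2) = 4 * Real.log (2 * n : ℕ) ^ 2 := by
        field_simp
      linarith
    calc 4 * ((2 * n).totient * Real.log (2 * n : ℕ) ^ 2)
        = (2 * n).totient * (4 * Real.log (2 * n : ℕ) ^ 2) := by ring
      _ ≤ ((2 * n : ℕ) : ℝ) * (c * ((2 * n : ℕ) : ℝ)) := mul_le_mul hφ1 h2 (by positivity) hN0.le
      _ = c * ((2 * n : ℕ) : ℝ) ^ 2 := by ring
  rw [Filter.eventually_atTop] at hG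
  obtain ⟨n₁, hG⟩ := hG
  have hcount : ∀ n : ℕ, max n₀ n₁ + 1 ≤ n →
      c / 2 * (((2 * n : ℕ) : ℝ) ^ 2 / ((2 * n).totient * Real.log (2 * n : ℕ) ^ 2)) ≤ (C t n).card := by
    intro n hn
    have h1 := h (2 * n) (by omega) (even_two_mul n)
    have h2 := hG n (by omega)
    have h3 : ((Pool.Agent.Y843.HG.CS t₀ (2 * n)).card : ℝ) ≤ (C t n).card + 2 := by
      have h4 := (card_le_card (hsup n (by omega))).trans (card_union_le _ _)
      have h5 : ({n, 2 * n - 1} : Finset ℕ).card ≤ 2 := card_le_two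
      have h6 : (Pool.Agent.Y843.HG.CS t₀ (2 * n)).card ≤ (C t n).card + 2 := by omega
      exact_mod_cast h6
    linarith
  have hmain : ∀ k : ℕ, 1 ≤ k → ∀ ε : ℝ, 0 < ε → ∃ B n₀ : ℕ, ∀ n : ℕ, n₀ ≤ n → ∀ S : Finset ℕ,
      S ⊆ C t n → ((outside k (Real.log (2 * n : ℕ) ^ B) S).card : ℝ) ≤ ε * (C t n).card := by
    intro k hk ε hε
    obtain ⟨B, n₂, h1⟩ := Pool.Agent.Y843.HG.CS_iso t ht2 hk (show 0 < ε * (c / 2) by positivity)
    refine ⟨B, n₂ + max n₀ n₁ + 1, ?_⟩
    intro n hn S hS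
    have h2 := h1 (2 * n) (by omega) (even_two_mul n) S (hS.trans (hsub n))
    rw [outside_eq]
    refine h2.trans ?_
    rw [mul_assoc]
    exact mul_le_mul_of_nonneg_left (hcount n (by omega)) hε.le
  refine ⟨t, ht2, c / 2, by positivity, ⟨max n₀ n₁ + 1, hcount⟩, hmain, ?_⟩
  intro k s hk hs
  have hs0 : (0 : ℝ) < s := by exact_mod_cast hs
  obtain ⟨B, n₂, h1⟩ := hmain k hk (1 / (2 * s)) (by positivity)
  refine ⟨B, n₂ + max n₀ n₁ + 1, ?_⟩
  intro n hn χ
  by_contra hcon
  push Not at hcon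
  have hCpos : (0 : ℝ) < (C t n).card := by
    have h2 := hcount n (by omega)
    have h3 := hG n (by omega)
    linarith
  have h2 : ∀ x : Fin s, (((C t n).filter (fun p => χ p = x)).card : ℝ) ≤ 1 / (2 * s) * (C t n).card := by
    intro x
    refine le_trans ?_ (h1 n (by omega) ((C t n).filter (fun p => χ p = x)) (filter_subset _ _))
    have h3 : (C t n).filter (fun p => χ p = x) ⊆
        outside k (Real.log (2 * n : ℕ) ^ B) ((C t n).filter (fun p => χ p = x)) := by
      intro p hp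
      unfold outside
      rw [mem_filter]
      refine ⟨hp, ?_⟩
      rintro ⟨a, d, hd1, hd2, h4, _⟩
      obtain ⟨j, hj, hne⟩ := hcon a d hd1 hd2 (fun j hj => (mem_filter.1 (h4 j hj)).1)
      apply hne
      rw [(mem_filter.1 (h4 j hj)).2]
      have h5 := (mem_filter.1 (h4 0 (by omega))).2
      rw [zero_mul, add_zero] at h5
      exact h5.symm
    exact_mod_cast card_le_card h3
  have h3 : ((C t n).card : ℝ) = ∑ x : Fin s, (((C t n).filter (fun p => χ p = x)).card : ℝ) := by
    have := card_eq_sum_card_fiberwise (s := C t n) (f := χ) (t := univ) (fun p _ => mem_coe.2 (mem_univ _))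
    exact_mod_cast this
  have h4 : ((C t n).card : ℝ) ≤ (C t n).card / 2 := by
    calc ((C t n).card : ℝ) = ∑ x : Fin s, (((C t n).filter (fun p => χ p = x)).card : ℝ) := h3
      _ ≤ ∑ _x : Fin s, 1 / (2 * s) * ((C t n).card : ℝ) := sum_le_sum fun x _ => h2 x
      _ = (C t n).card / 2 := by
          rw [sum_const, card_univ, Fintype.card_fin, nsmul_eq_mul]
          field_simp
  linarith

end Pool.Agent.Results.MP_7b7e48_nt.Progressions
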