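import Pool.Agent.TH935.GF
import Pool.Agent.TH935.GF2
import Pool.Agent.TH935.GF3

/-!
# The order of magnitude of binary Goldbach representation numbers in all windows, for almost all
members of arbitrary thin families of integers of nearly minimal additive energy

Definitions used from `Pool.Agent.H560R3.GB`: `C₂`: the twin prime constant
`∏_{p > 2} (1 - 1 / (p - 1) ^ 2)`; `sing n`: the singular series `2 C₂ ∏_{p ∣ n, p > 2} (p - 1) / (p - 2)`.
-/

set_option autoImplicit false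

namespace Pool.Agent.Results.MP_629a14_nt.ThinFamilies

open Finset Pool.Agent.H560R3.GB

/-- `r₂(n; ℙ)`, the number of ordered representations of `n` as a sum of two primes. -/
def r₂ (n : ℕ) : ℕ := ((antidiagonal n).filter (fun q : ℕ × ℕ => q.1.Prime ∧ q.2.Prime)).card

/-- The number of the ordered representations `n = p + q` as a sum of two primes with
`y₁ < p ≤ y₂`. -/
def R (n y₁ y₂ : ℕ) : ℕ :=
  ((antidiagonal n).filter (fun q : ℕ × ℕ => q.1.Prime ∧ q.2.Prime ∧ y₁ < q.1 ∧ q.1 ≤ y₂)).card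

/-- (1) `r₂(n)` lies between `(1 - ε) C₂` and `1 + ε` times `n² / (φ(n) log² n)`; (2) more precisely,
for every window `(y₁, y₂]` in `(0, n]` of a length of at least `n / log ^ A n` the number of the
representations with the first prime in the window lies between `(1 - ε) C₂` and `1 + ε` times
`(y₂ - y₁) n / (φ(n) log² n)`, and (3) it agrees with `sing n (y₂ - y₁) / log² n` up to a relative error of
at most `ε`. -/
def Holds (ε : ℝ) (A n : ℕ) : Prop :=
  ((1 - ε) * C₂ * ((n : ℝ) ^ 2 / (n.totient * Real.log n ^ 2)) ≤ r₂ n ∧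
    (r₂ n : ℝ) ≤ (1 + ε) * ((n : ℝ) ^ 2 / (n.totient * Real.log n ^ 2))) ∧
  ∀ y₁ y₂ : ℕ, y₁ < y₂ → y₂ ≤ n → (n : ℝ) / Real.log n ^ A ≤ (y₂ : ℝ) - y₁ →
    ((1 - ε) * C₂ * (((y₂ : ℝ) - y₁) * n / (n.totient * Real.log n ^ 2)) ≤ R n y₁ y₂ ∧
      (R n y₁ y₂ : ℝ) ≤ (1 + ε) * (((y₂ : ℝ) - y₁) * n / (n.totient * Real.log n ^ 2))) ∧
    |(R n y₁ y₂ : ℝ) - sing n * ((y₂ : ℝ) - y₁) / Real.log n ^ 2| ≤
      ε * (sing n * ((y₂ : ℝ) - y₁) / Real.log n ^ 2)

/-- The additive energy of order `h` of a finite family of integers `v i`: the number of solutions of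
`v (a 1) + ... + v (a h) = v (b 1) + ... + v (b h)`. -/
noncomputable def energy (h : ℕ) {ι : Type} [Fintype ι] (v : ι → ℤ) : ℕ :=
  Nat.card {q : (Fin h → ι) × (Fin h → ι) // ∑ j, v (q.1 j) = ∑ j, v (q.2 j)}

/-- The number of representations of `t` as `v (a 1) + ... + v (a h)`. -/
noncomputable def reps (h : ℕ) {ι : Type} [Fintype ι] (v : ι → ℤ) (t : ℤ) : ℕ :=
  Nat.card {a : Fin h → ι // ∑ j, v (a j) = t}

open Classical in
/-- The number of the members `v i` of the family which are positive and even, and for which `Holds`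
fails. -/
noncomputable def exceptions (ε : ℝ) (A : ℕ) {ι : Type} [Fintype ι] (v : ι → ℤ) : ℕ :=
  (univ.filter (fun i => 0 < v i ∧ Even (v i) ∧ ¬ Holds ε A (v i).toNat)).card

lemma C₂_nonneg : 0 ≤ C₂ := by
  unfold C₂
  apply Real.iInf_nonneg
  intro z
  apply prod_nonneg
  intro p hp
  rw [mem_filter, mem_Icc] at hp
  exact (Pool.Agent.TH935.GF.fac_pos p hp.1.1).le

lemma R_eq (n y₁ y₂ : ℕ) (h : y₂ ≤ n) : R n y₁ y₂ = Pool.Agent.W93.PG.cnt n y₁ y₂ := by
  unfold R Pool.Agent.W93.PG.cnt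
  apply card_bij (fun q _ => q.1)
  · intro q hq
    rw [mem_filter, HasAntidiagonal.mem_antidiagonal] at hq
    obtain ⟨h1, h2, h3, h4, h5⟩ := hq
    rw [mem_filter, mem_Ioc]
    refine ⟨⟨h4, h5⟩, h2, ?_⟩
    have : n - q.1 = q.2 := by omega
    rw [this]
    exact h3
  · intro q hq q' hq' he
    rw [mem_filter, HasAntidiagonal.mem_antidiagonal] at hq hq'
    ext
    · exact he
    · have h1 := hq.1
      have h2 := hq'.1
      omega
  · intro p hp
    rw [mem_filter, mem_Ioc] at hp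
    refine ⟨(p, n - p), ?_, rfl⟩
    rw [mem_filter, HasAntidiagonal.mem_antidiagonal]
    exact ⟨by simp only; omega, hp.2.1, hp.2.2, hp.1.1, hp.1.2⟩

lemma r₂_eq (n : ℕ) : r₂ n = R n 0 n := by
  unfold r₂ R
  congr 1
  apply filter_congr
  intro q hq
  rw [HasAntidiagonal.mem_antidiagonal] at hq
  constructor
  · rintro ⟨h1, h2⟩
    exact ⟨h1, h2, h1.pos, by omega⟩
  · rintro ⟨h1, h2, -, -⟩
    exact ⟨h1, h2⟩

theorem first (h A B C U : ℕ) (hh : 1 ≤ h) (ε : ℝ) (hε : 0 < ε) :
    ∃ N₀ : ℕ, ∀ N : ℕ, N₀ ≤ N → ∀ (ι : Type) [Fintype ι] (v : ι → ℤ),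
      (∀ i, v i ≤ B * N) →
      (energy h v : ℝ) * N ≤ Real.log N ^ C * (Fintype.card ι : ℝ) ^ (2 * h) →
      (exceptions ε A v : ℝ) ≤ Fintype.card ι / Real.log N ^ U := by
  classical
  obtain ⟨n1, h1⟩ := Pool.Agent.H373R2.T7.ev_L' 2
  have hP : ∀ m : ℕ, n1 + 4 ≤ m → 2 ∣ m → Pool.Agent.W93.PG.WinP (min ε 1) A m → Holds ε A m := by
    intro m hm h2m hwin
    have a1 := h1 m (by omega)
    have hm4 : (4 : ℝ) ≤ m := by exact_mod_cast (by omega : 4 ≤ m)
    have hm0 : (0 : ℝ) < m := by linarith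
    have hmne : m ≠ 0 := by omega
    obtain ⟨s1, s2⟩ := Pool.Agent.TH935.GF.sing_tot m hmne h2m
    have hC := C₂_nonneg
    have hφ : (0 : ℝ) < m.totient := by exact_mod_cast Nat.totient_pos.2 (Nat.pos_of_ne_zero hmne)
    obtain ⟨M, hM⟩ : ∃ M, M = Real.log (m : ℝ) := ⟨_, rfl⟩
    have hM2 : 2 ≤ M := by rw [hM]; linarith
    have hM0 : 0 < M := by linarith
    have key : ∀ y₁ y₂ : ℕ, y₁ < y₂ → y₂ ≤ m → (m : ℝ) / Real.log m ^ A ≤ (y₂ : ℝ) - y₁ →
        ((1 - ε) * C₂ * (((y₂ : ℝ) - y₁) * m / (m.totient * Real.log m ^ 2)) ≤ R m y₁ y₂ ∧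
          (R m y₁ y₂ : ℝ) ≤ (1 + ε) * (((y₂ : ℝ) - y₁) * m / (m.totient * Real.log m ^ 2))) ∧
        |(R m y₁ y₂ : ℝ) - sing m * ((y₂ : ℝ) - y₁) / Real.log m ^ 2| ≤
          ε * (sing m * ((y₂ : ℝ) - y₁) / Real.log m ^ 2) := by
      intro y₁ y₂ h12 hy2 hΔ
      have hw := hwin y₁ y₂ h12 hy2 hΔ
      rw [← R_eq m y₁ y₂ hy2] at hw
      have hy : (0 : ℝ) < (y₂ : ℝ) - y₁ := by
        have : (y₁ : ℝ) < y₂ := by exact_mod_cast h12
        linarith
      obtain ⟨Q, hQ⟩ : ∃ Q : ℝ, Q = ((y₂ : ℝ) - y₁) / Real.log m ^ 2 := ⟨_, rfl⟩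
      have hQ0 : 0 < Q := by
        rw [hQ, ← hM]
        positivity
      have e1 : sing m * ((y₂ : ℝ) - y₁) / Real.log m ^ 2 = sing m * Q := by rw [hQ, mul_div_assoc]
      have e2 : ((y₂ : ℝ) - y₁) * m / (m.totient * Real.log m ^ 2) = m / m.totient * Q := by
        rw [hQ]
        field_simp
      rw [e1] at hw ⊢
      rw [e2]
      have hr0 : 0 < (m : ℝ) / m.totient := by positivity
      have hs0 : 0 ≤ sing m := le_trans (by positivity) s1
      have hsQ : 0 ≤ sing m * Q := by positivity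
      have hmin1 : min ε 1 * (sing m * Q) ≤ ε * (sing m * Q) :=
        mul_le_mul_of_nonneg_right (min_le_left _ _) hsQ
      have hmin2 : min ε 1 * (sing m * Q) ≤ 1 * (sing m * Q) :=
        mul_le_mul_of_nonneg_right (min_le_right _ _) hsQ
      have hw2 := abs_le.1 hw
      have t1 : C₂ * (m / m.totient) * Q ≤ sing m * Q := mul_le_mul_of_nonneg_right s1 hQ0.le
      have t2 : sing m * Q ≤ m / m.totient * Q := mul_le_mul_of_nonneg_right s2 hQ0.le
      refine ⟨⟨?_, ?_⟩, hw.trans hmin1⟩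
      · rcases le_or_gt ε 1 with hε1 | hε1
        · have h3 : (1 - ε) * (C₂ * (m / m.totient) * Q) ≤ (1 - ε) * (sing m * Q) :=
            mul_le_mul_of_nonneg_left t1 (by linarith)
          have e3 : (1 - ε) * C₂ * (m / m.totient * Q) = (1 - ε) * (C₂ * (m / m.totient) * Q) := by
            ring
          rw [e3]
          linarith [hw2.1]
        · have h3 : (1 - ε) * C₂ * (m / m.totient * Q) ≤ 0 := by
            apply mul_nonpos_of_nonpos_of_nonneg _ (by positivity)
            exact mul_nonpos_of_nonpos_of_nonneg (by linarith) hC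
          exact h3.trans (Nat.cast_nonneg _)
      · have h3 : (1 + ε) * (sing m * Q) ≤ (1 + ε) * (m / m.totient * Q) :=
          mul_le_mul_of_nonneg_left t2 (by linarith)
        linarith [hw2.2]
    refine ⟨?_, key⟩
    have h0m := key 0 m (by omega) le_rfl (by
      push_cast
      rw [sub_zero]
      apply div_le_self hm0.le
      apply one_le_pow₀
      rw [← hM]
      linarith)
    have e4 : (((m : ℕ) : ℝ) - ((0 : ℕ) : ℝ)) * m / (m.totient * Real.log m ^ 2) =
        (m : ℝ) ^ 2 / (m.totient * Real.log m ^ 2) := by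
      push_cast
      rw [sub_zero]
      ring
    rw [e4, ← r₂_eq] at h0m
    exact h0m.1
  obtain ⟨N₀, h0⟩ := Pool.Agent.TH935.GF.transfer h B C U (Holds ε A) (by
    intro B C U
    exact Pool.Agent.TH935.GF.fam_win h B C A U (n1 + 4) hh (min ε 1)
      (lt_min hε one_pos) (Holds ε A) hP)
  refine ⟨N₀, fun N hN ι _ v hv hE => ?_⟩
  unfold exceptions
  refine h0 N hN ι v hv hE _ ?_
  intro i hi
  rw [mem_filter] at hi
  exact hi.2

/-- Let `h ≥ 1`, `A`, `B`, `C`, `U` and `ε > 0` be fixed, and let `N` be large. Let `v i`, `i ∈ ι`, be an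
arbitrary finite family of integers `≤ B N`.

* Suppose that the additive energy of order `h` of the family is at most `log ^ C N` times
  `(#ι) ^ (2 h) / N` (up to the power of the logarithm this is the least possible energy of a family with
  members in `[0, N]`, and the family may have as few as `N ^ (1 / h)` members). Then all the positive even
  members `n` of the family, with at most `#ι / log ^ U N` exceptions, have the following property: `r₂(n)`
  lies between `(1 - ε) C₂` and `1 + ε` times `n² / (φ(n) log² n)`; and moreover in every window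
  `(y₁, y₂]` in `(0, n]` of a length of at least `n / log ^ A n` the number of the representations
  `n = p + q` with `p` in the window lies between `(1 - ε) C₂` and `1 + ε` times
  `(y₂ - y₁) n / (φ(n) log² n)` and is asymptotically as predicted by Hardy and Littlewood.
* In particular this holds if no integer has more than `log ^ C N` representations as a sum of `h` members
  of the family, and `(#ι) ^ h ≥ N / log ^ C N`.

(Both hypotheses are invariant under translations: the results hold in every translate of the family.) -/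
theorem result (h A B C U : ℕ) (hh : 1 ≤ h) (ε : ℝ) (hε : 0 < ε) :
    (∃ N₀ : ℕ, ∀ N : ℕ, N₀ ≤ N → ∀ (ι : Type) [Fintype ι] (v : ι → ℤ),
      (∀ i, v i ≤ B * N) →
      (energy h v : ℝ) * N ≤ Real.log N ^ C * (Fintype.card ι : ℝ) ^ (2 * h) →
      (exceptions ε A v : ℝ) ≤ Fintype.card ι / Real.log N ^ U) ∧
    (∃ N₀ : ℕ, ∀ N : ℕ, N₀ ≤ N → ∀ (ι : Type) [Fintype ι] (v : ι → ℤ),
      (∀ i, v i ≤ B * N) →
      (∀ t, (reps h v t : ℝ) ≤ Real.log N ^ C) →
      (N : ℝ) ≤ Real.log N ^ C * (Fintype.card ι : ℝ) ^ h →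
      (exceptions ε A v : ℝ) ≤ Fintype.card ι / Real.log N ^ U) := by
  refine ⟨first h A B C U hh ε hε, ?_⟩
  obtain ⟨N₀, h0⟩ := first h A B (2 * C) U hh ε hε
  obtain ⟨N₁, h1⟩ := Pool.Agent.H373R2.T7.ev_L' 1
  refine ⟨N₀ + N₁, fun N hN ι _ v hv hJ hx => ?_⟩
  apply h0 N (by omega) ι v hv
  have hL := h1 N (by omega)
  have hL0 : 0 ≤ Real.log N := by linarith
  have h2 : (energy h v : ℝ) ≤ (Fintype.card ι : ℝ) ^ h * Real.log N ^ C :=
    Pool.Agent.TH935.GF.En_le h v _ hJ
  calc (energy h v : ℝ) * N ≤ ((Fintype.card ι : ℝ) ^ h * Real.log N ^ C) *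
        (Real.log N ^ C * (Fintype.card ι : ℝ) ^ h) :=
        mul_le_mul h2 hx (Nat.cast_nonneg _) (by positivity)
    _ = Real.log N ^ (2 * C) * (Fintype.card ι : ℝ) ^ (2 * h) := by ring

end Pool.Agent.Results.MP_629a14_nt.ThinFamilies
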