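import Pool.Agent.Y677.KP.Apply
import Pool.Agent.Y532.QuadOne

set_option autoImplicit false

/-!
# Narrow arithmetic progressions of primes `p` with `p ^ 2 + p + 1` prime or a product of at most five primes

Let `P` be the set of the primes `p` for which `p ^ 2 + p + 1` has at most five prime factors, all larger than
`p ^ (1 / 7)`: it contains all primes `p` with `p ^ 2 + p + 1` prime. For every `l` the interval `(X, 2X]`
contains `l`-term arithmetic progressions of elements of `P` with difference at most `(log X) ^ B`.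
More generally, for an ARBITRARY subset `A` of the set `R s` of the `n` for which all prime factors of
`n` and of the value at `n` are larger than `n ^ (1 / s)`, in every short interval all but a small
proportion of the expected number of elements of `A` are terms of such progressions inside `A`.
-/

namespace Pool.Agent.Results.MP_82233c_nt.NarrowProgressions

open Finset Filter
open Pool.Agent.TH977.PW (N)
open Pool.Agent.Y677.RSZ (InProg Outside)
open Pool.Agent.Y532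

/-- All prime factors of `n` and of `n ^ 2 + n + 1` are larger than `n ^ (1 / s)`. -/
def R (s : ℕ) : Set ℕ :=
  {n | (∀ p : ℕ, p.Prime → p ∣ n → (n : ℝ) ^ (1 / (s : ℝ)) < (p : ℝ)) ∧
    ∀ p : ℕ, p.Prime → p ∣ n ^ 2 + n + 1 → (n : ℝ) ^ (1 / (s : ℝ)) < (p : ℝ)}

/-- The primes `p` for which `p ^ 2 + p + 1` has at most five prime factors, all larger than
`p ^ (1 / 7)`. -/
def P : Set ℕ :=
  {p | p.Prime ∧ (∀ q : ℕ, q.Prime → q ∣ p ^ 2 + p + 1 → (p : ℝ) ^ (1 / (7 : ℝ)) < (q : ℝ)) ∧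
    (p ^ 2 + p + 1).primeFactorsList.length ≤ 5}

/-- **Narrow progressions of primes `p` with `p ^ 2 + p + 1` prime or a product of at most five primes.** -/
theorem result :
    (∀ s : ℕ, 2 ≤ s → ∀ p : ℕ, p.Prime → (p ^ 2 + p + 1).Prime → p ∈ R s) ∧
    (∀ p : ℕ, p.Prime → (p ^ 2 + p + 1).Prime → p ∈ P) ∧
    (∃ κ : ℝ, 0 < κ ∧ ∀ᶠ X : ℕ in atTop, κ * X / Real.log X ^ 2 ≤ N P X (2 * X)) ∧
    (∀ l : ℕ, ∃ B : ℕ, ∀ᶠ X : ℕ in atTop, ∃ u d : ℕ, 1 ≤ d ∧ (d : ℝ) ≤ Real.log X ^ B ∧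
        ∀ i < l, u + i * d ∈ P ∧ X < u + i * d ∧ u + i * d ≤ 2 * X) ∧
    ∀ s : ℕ, 2 ≤ s → ∀ θ : ℝ, 0 < θ → ∀ l : ℕ, 2 ≤ l → ∀ ε : ℝ, 0 < ε → ∃ B : ℕ,
      ∀ᶠ X : ℕ in atTop, ∀ Y : ℕ, (X : ℝ) ^ θ ≤ Y → Y ≤ X → ∀ A : Set ℕ, A ⊆ R s →
        (N (Outside A l (Real.log X ^ B) X (X + Y)) X (X + Y) : ℝ) ≤ ε * Y / Real.log X ^ 2 := by
  have hval : ∀ s : ℕ, 2 ≤ s → ∀ p : ℕ, p.Prime → (p ^ 2 + p + 1).Prime → ∀ q : ℕ, q.Prime →
      q ∣ p ^ 2 + p + 1 → (p : ℝ) ^ (1 / (s : ℝ)) < (q : ℝ) := by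
    intro s hs p hp hp2 q hq hd
    have h2 := hp.two_le
    exact Pool.Agent.Y677.KP.rough_val s p _ q hs h2 hp2 (by nlinarith) hq hd
  refine ⟨fun s hs p hp hp2 => ⟨fun q hq hd => Pool.Agent.Y677.KP.rough_prime s p q hs hp hq hd,
    hval s hs p hp hp2⟩, fun p hp hp2 => ⟨hp, fun q hq hd => by
      have h3 := hval 7 (by norm_num) p hp hp2 q hq hd
      exact_mod_cast h3, by rw [Nat.primeFactorsList_prime hp2]; simp⟩, ?_⟩
  exact Pool.Agent.Y677.KP.quad_p 1 1 1 one_pos hg1 hD1 hadm1 (fun m => m ^ 2 + m + 1)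
    (fun m _ => val_eq m) R P
    (fun m hm => ⟨fun p hp hd => Pool.Agent.Y677.KP.rough_prime 7 m p (by norm_num) hm.1 hp hd,
      fun p hp hd => by exact_mod_cast hm.2.1 p hp hd⟩)
    (fun s _ m hm => hm)
    (fun m hm _ h2 h3 => ⟨hm, fun q hq hd => by exact_mod_cast h2 q hq hd, h3⟩)

end Pool.Agent.Results.MP_82233c_nt.NarrowProgressions
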